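import Pool.Agent.Helper46.CV.D12b

set_option autoImplicit false

namespace Pool.Agent.Helper36.CV

open Complex

noncomputable section

/-! D12: upper bound of the heights -/

theorem d12_phi8 : phi ^ 8 ≤ 47 ∧ phi ^ 10 ≤ 12302 / 100 ∧ 1500 ≤ phi ^ 16 := by
  have g1 := d11_g1
  have g2 := d11_g2
  have p2 := d11_pp
  have p4 : phi ^ 4 = 5 + 3 * gam := by
    rw [show phi ^ 4 = (phi ^ 2) ^ 2 by ring, p2]
    linear_combination d11_gg
  have p8 : phi ^ 8 = 34 + 21 * gam := by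
    rw [show phi ^ 8 = (phi ^ 4) ^ 2 by ring, p4]
    linear_combination 9 * d11_gg
  have p10 : phi ^ 10 = 89 + 55 * gam := by
    rw [show phi ^ 10 = phi ^ 8 * phi ^ 2 by ring, p8, p2]
    linear_combination 21 * d11_gg
  refine ⟨by rw [p8]; linarith, by rw [p10]; linarith, ?_⟩
  rw [show phi ^ 16 = (phi ^ 8) ^ 2 by ring, p8]
  nlinarith

theorem d12_caseA {x y t L g B γc Ly0 : ℝ} (ht0 : 0 < t) (hL : L = t ^ 2)
    (hx : x ^ 2 ≤ 22 / 10 * (3 / 10 * L)) (hy : y ^ 2 ≤ 22 / 10 * (374 / 1000 * L))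
    (hB : 0 < B) (hg : g = B * γc) (hγ : 0 < γc) (hg2 : g ≤ 2428 / 10000 * t)
    (hLy : Ly0 ≤ γc * gam ^ 4 * (y + gam * x + phi * t)) :
    B * Ly0 ≤ L / (2 * Real.pi) * (1 + 12 * L) := by
  have g1 := d11_g1
  have g2 := d11_g2
  have g0 := d11_gpos
  have hx1 : x ≤ 813 / 1000 * t := by
    by_contra hc
    push Not at hc
    have : (813 / 1000 * t) ^ 2 < x ^ 2 := by gcongr
    rw [hL] at hx
    nlinarith
  have hy1 : y ≤ 908 / 1000 * t := by
    by_contra hc
    push Not at hc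
    have : (908 / 1000 * t) ^ 2 < y ^ 2 := by gcongr
    rw [hL] at hy
    nlinarith
  have q4 : gam ^ 4 = 2 - 3 * gam := by
    rw [show gam ^ 4 = (gam ^ 2) ^ 2 by ring, d11_gg]
    linear_combination d11_gg
  have h1 : y + gam * x + phi * t ≤ 303 / 100 * t := by
    have a1 : gam * x ≤ 6181 / 10000 * (813 / 1000 * t) := by
      calc gam * x ≤ gam * (813 / 1000 * t) := by gcongr
        _ ≤ 6181 / 10000 * (813 / 1000 * t) := by gcongr
    have a2 : phi * t ≤ 16181 / 10000 * t := by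
      apply mul_le_mul_of_nonneg_right _ ht0.le
      rw [d11_phi]; linarith
    linarith
  have h2 : gam ^ 4 ≤ 146 / 1000 := by rw [q4]; linarith
  have h3 : 0 ≤ gam ^ 4 := by positivity
  have hL0 : 0 < L := by rw [hL]; positivity
  have h4 : B * Ly0 ≤ 12 / 100 * L := by
    calc B * Ly0 ≤ B * (γc * gam ^ 4 * (y + gam * x + phi * t)) := by gcongr
      _ ≤ B * (γc * gam ^ 4 * (303 / 100 * t)) := by gcongr
      _ = g * gam ^ 4 * (303 / 100 * t) := by rw [hg]; ring
      _ ≤ (2428 / 10000 * t) * (146 / 1000) * (303 / 100 * t) := by gcongr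
      _ = 2428 / 10000 * (146 / 1000) * (303 / 100) * t ^ 2 := by ring
      _ ≤ 12 / 100 * L := by
          rw [← hL]
          apply mul_le_mul_of_nonneg_right (by norm_num) hL0.le
  have hpi := Real.pi_lt_d6
  have hpi0 := Real.pi_pos
  have h5 : 12 / 100 * L ≤ L / (2 * Real.pi) := by
    rw [le_div_iff₀ (by positivity)]
    nlinarith
  have h6 : L / (2 * Real.pi) ≤ L / (2 * Real.pi) * (1 + 12 * L) := by
    have : 0 ≤ L / (2 * Real.pi) := by positivity
    nlinarith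
  linarith

theorem st_D12 (d1 : ST_D1) (d3 : ST_D3) (d4 : ST_D4) (d5 : ST_D5) (d7 : ST_D7) (d8 : ST_D8)
    (d9 : ST_D9) (d10 : ST_D10) (d11 : ST_D11) (t6 : ST_T6) : ST_D12 := by
  obtain ⟨l3, l3p, d3⟩ := d3
  obtain ⟨l4, l4p, d4⟩ := d4
  obtain ⟨l8, l8p, d8⟩ := d8
  obtain ⟨l9, l9p, d9⟩ := d9
  obtain ⟨l11, l11p, d11⟩ := d11
  refine ⟨min (1 / 10 ^ 30) (min l3 (min l4 (min l8 (min l9 l11)))), by positivity, ?_⟩
  intro l E a b hl0 hl hb _ hlab
  obtain ⟨hlA, hl⟩ := le_min_iff.mp hl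
  obtain ⟨hl3, hl⟩ := le_min_iff.mp hl
  obtain ⟨hl4, hl⟩ := le_min_iff.mp hl
  obtain ⟨hl8, hl⟩ := le_min_iff.mp hl
  obtain ⟨hl9, hl11⟩ := le_min_iff.mp hl
  have hl100 : |l| ≤ 1 / 100 := by
    refine hlA.trans ?_
    norm_num
  have hl10000 : |l| ≤ 1 / 10000 := by
    refine hlA.trans ?_
    norm_num
  obtain ⟨t, ht⟩ : ∃ t, t = Real.sqrt |l| := ⟨_, rfl⟩
  have ht0 : 0 < t := by rw [ht]; exact Real.sqrt_pos.mpr hl0
  have htL : |l| = t ^ 2 := by rw [ht, Real.sq_sqrt hl0.le]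
  have ht15 : t ≤ 1 / 10 ^ 15 := by
    by_contra hc
    push Not at hc
    have : (1 / 10 ^ 15 : ℝ) ^ 2 < t ^ 2 := by gcongr
    rw [← htL] at this
    norm_num at this hlA
    linarith
  obtain ⟨w, hw⟩ : ∃ w, w = Real.sqrt t := ⟨_, rfl⟩
  have hw0 : 0 < w := by rw [hw]; exact Real.sqrt_pos.mpr ht0
  have hw1 : w ≤ 1 / 10 := by
    rw [hw, Real.sqrt_le_left (by norm_num)]
    refine ht15.trans ?_
    norm_num
  have hwt : t ≤ 1 / 10 * w := by
    have h1 : t = w * w := by rw [hw, Real.mul_self_sqrt ht0.le]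
    have h2 : w * w ≤ 1 / 10 * w := mul_le_mul_of_nonneg_right hw1 hw0.le
    linarith
  have hB1 : 1 ≤ |(b : ℝ)| := by
    have := Int.one_le_abs hb
    exact_mod_cast this
  have hB0 : 0 < |(b : ℝ)| := by linarith
  have hf2 : phi ≤ 16181 / 10000 := by rw [d11_phi]; linarith [d11_g2]
  have hf0 := d11_ppos
  have hg0 := d11_gpos
  have hgl1 : gam ≤ 1 := by linarith [d11_g2]
  obtain ⟨n, hn1, hn2⟩ := d12_level hw0 (show w ≤ |(b : ℝ)| by linarith)
  obtain ⟨c, hc1, hc2⟩ := d12_level (show 0 < 15 / 100 * t by positivity)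
    (show 15 / 100 * t ≤ |(b : ℝ)| by linarith)
  have hc2' : |(b : ℝ)| * gam ^ c < 15 / 100 * phi * t := by linarith
  have hct : |(b : ℝ)| * gam ^ c < 1 / 4 * t := by
    have : 15 / 100 * phi * t ≤ 15 / 100 * (16181 / 10000) * t := by gcongr
    linarith
  have hnc : n ≤ c := by
    by_contra hcon
    push Not at hcon
    have h1 : gam ^ n ≤ gam ^ c := pow_le_pow_of_le_one hg0.le hgl1 hcon.le
    have h2 : |(b : ℝ)| * gam ^ n ≤ |(b : ℝ)| * gam ^ c := by gcongr
    linarith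
  have hc1' : 1 ≤ c := by
    rcases Nat.eq_zero_or_pos c with h | h
    · rw [h, pow_zero, mul_one] at hct
      linarith
    · exact h
  -- bounds for a, b, r
  have ha : ∀ m, |aa l a b m E| ≤ 53 / 100 * t := by
    intro m
    rw [ht]
    exact d12_a d1 t6 hl0 hl100 hlab m
  have e3 := d3 l E a b n hl0 hl3 hb
  have e4 := d4 l E a b n hl0 hl4 hb
  have e8 := d8 l E a b n hl0 hl8 hb
  have e9 := d9 l E a b n c hl0 hl9 hb hnc
  rw [← ht, ← hw] at e3 e4 e8 e9
  clear d3 d4 d8 d9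
  have hW := (e3 hn1 (by linarith [ha n]) n le_rfl).1
  have haa := e4 hn1 hn2 (fun N _ => by linarith [ha N])
  obtain ⟨Qn, Rn, Pn, -, -⟩ := e8 hn1 hn2 haa
  set gn := |(b : ℝ)| * gam ^ n with hgn
  have hgn0 : 0 < gn := by positivity
  have hpi1 := Real.pi_gt_d6
  have hpi2 := Real.pi_lt_d6
  have hpisq : Real.pi ^ 2 ≤ 9.87 := by
    calc Real.pi ^ 2 ≤ (3.141593 : ℝ) ^ 2 := by gcongr
      _ ≤ 9.87 := by norm_num
  have Qn' : |mQ l a b n E| ≤ 10 * gn ^ 2 := by
    have h1 := abs_le.mp Qn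
    have hgn2 : 0 < gn ^ 2 := by positivity
    have h2 : Real.pi ^ 2 / 2 * gn ^ 2 ≤ 9.87 / 2 * gn ^ 2 := by gcongr
    have h3 : gn ^ 2 * (Real.pi ^ 2 / 2) * (194 / 10) * |l| ≤ 1 * gn ^ 2 := by
      calc gn ^ 2 * (Real.pi ^ 2 / 2) * (194 / 10) * |l| ≤
          gn ^ 2 * (9.87 / 2) * (194 / 10) * (1 / 10000) := by
            apply mul_le_mul _ hl10000 (abs_nonneg _) (by positivity)
            gcongr
        _ ≤ 1 * gn ^ 2 := by linarith
    rw [abs_le]
    have h4 : 0 ≤ Real.pi ^ 2 / 2 * gn ^ 2 := by positivity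
    constructor <;> linarith
  obtain ⟨Qc, Rc, Pc, ytc, hk⟩ := e9 hn1 hn2 hc1 hc2' Qn' Rn Pn
  obtain ⟨k, rfl⟩ := Nat.exists_eq_add_of_le hnc
  rw [show n + k - n = k by omega] at Qc
  have hlL : l ^ 2 = |l| ^ 2 := (sq_abs l).symm
  set L := |l| with hLdef
  have hgc : |(b : ℝ)| * gam ^ (n + k) = gn * gam ^ k := by rw [hgn, pow_add]; ring
  obtain ⟨G1, G2, g3, g4⟩ := d12_G ht0 htL hc1 hc2'
  set gc := |(b : ℝ)| * gam ^ (n + k) with hgcdef
  set G := Real.pi ^ 2 / 2 * gc ^ 2 with hG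
  have hQG : |mQ l a b (n + k) E - G| ≤ G * (194 / 10) * L + 44 / 1000 * L ^ 2 := by
    have hgk : 0 < gam ^ (2 * k) := by positivity
    have h1 : |gam ^ (2 * k) * mQ l a b n E - G| ≤ G * (194 / 10) * L := by
      have e : gam ^ (2 * k) * mQ l a b n E - G =
          gam ^ (2 * k) * (mQ l a b n E - Real.pi ^ 2 / 2 * gn ^ 2) := by
        rw [hG, hgc]; ring
      rw [e, abs_mul, abs_of_pos hgk]
      calc gam ^ (2 * k) * |mQ l a b n E - Real.pi ^ 2 / 2 * gn ^ 2| ≤
          gam ^ (2 * k) * (gn ^ 2 * (Real.pi ^ 2 / 2) * (194 / 10) * L) := by gcongr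
        _ = G * (194 / 10) * L := by rw [hG, hgc]; ring
    have h2 : mQ l a b (n + k) E - G = (mQ l a b (n + k) E - gam ^ (2 * k) * mQ l a b n E) +
        (gam ^ (2 * k) * mQ l a b n E - G) := by ring
    rw [h2]
    refine (abs_add_le _ _).trans ?_
    rw [hlL] at Qc
    linarith
  obtain ⟨Q1, Q2, Q3⟩ := d12_Qb hl0 hlA G1 G2 hQG
  -- phases
  have hbn : |bb l a b n E| ≤ 226 / 100 * gn + 53 / 100 * t := by
    have := d12_bn d1 (l := l) (E := E) (a := a) (b := b) (n := n) (by rw [← hLdef]; exact hl10000)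
      (by rw [← hLdef, ← ht]; exact ha n) (by rw [← hLdef]; exact hW)
    rw [← hLdef, ← ht] at this
    exact this
  have hbk : ∀ m, |bb l a b (n + k + m) E| ≤ gam ^ m * (6 / 10 * t) + (gam ^ m * (53 / 100 * t)) +
      85 / 100 * t := by
    intro m
    have h1 := d12_b d1 t6 (l := l) (E := E) a b (by rw [← hLdef]; exact hl0)
      (by rw [← hLdef]; exact hl100) n (k + m)
    rw [← hLdef, ← ht, ← add_assoc] at h1
    refine h1.trans ?_
    have hp : 0 < gam ^ (k + m) := by positivity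
    have h2 := mul_le_mul_of_nonneg_left hbn hp.le
    have h3 : gam ^ (k + m) * (226 / 100 * gn) ≤ gam ^ m * (6 / 10 * t) := by
      calc gam ^ (k + m) * (226 / 100 * gn) = gam ^ m * (226 / 100 * (gn * gam ^ k)) := by
            rw [pow_add]; ring
        _ ≤ gam ^ m * (6 / 10 * t) := by
            rw [← hgc]
            apply mul_le_mul_of_nonneg_left _ (by positivity)
            linarith
    have h4 : gam ^ (k + m) * (53 / 100 * t) ≤ gam ^ m * (53 / 100 * t) := by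
      apply mul_le_mul_of_nonneg_right _ (by positivity)
      exact pow_le_pow_of_le_one hg0.le hgl1 (by omega)
    linarith
  have hrk : ∀ m, 2236 / 1000 * |rr l a b (n + k + m) E| ≤ 53 / 100 * t +
      (gam ^ m * (6 / 10 * t) + (gam ^ m * (53 / 100 * t)) + 85 / 100 * t) :=
    fun m => d12_r d1 (ha _) (hbk m)
  have hr14 : ∀ j, n + k ≤ j → j ≤ n + k + 2 → |rr l a b j E| < 1 / 4 := by
    intro j hj _
    obtain ⟨m, rfl⟩ := Nat.exists_eq_add_of_le hj
    have h1 := hrk m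
    have h2 : gam ^ m ≤ 1 := pow_le_one₀ hg0.le hgl1
    have h3 : gam ^ m * (6 / 10 * t) ≤ 6 / 10 * t := mul_le_of_le_one_left (by positivity) h2
    have h4 : gam ^ m * (53 / 100 * t) ≤ 53 / 100 * t := mul_le_of_le_one_left (by positivity) h2
    have h5 : t ≤ 1 / 1000 := by
      refine ht15.trans ?_
      norm_num
    linarith
  have hr8 : |rr l a b (n + k + 8) E| ≤ 63 / 100 * t := by
    have h1 := hrk 8
    have h2 : gam ^ 8 ≤ 22 / 1000 := by
      calc gam ^ 8 ≤ (6181 / 10000) ^ 8 := by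
            have := d11_g2
            gcongr
        _ ≤ 22 / 1000 := by norm_num
    have h3 : gam ^ 8 * (6 / 10 * t) ≤ 22 / 1000 * (6 / 10 * t) := by gcongr
    have h4 : gam ^ 8 * (53 / 100 * t) ≤ 22 / 1000 * (53 / 100 * t) := by gcongr
    linarith
  have htt : ∀ m, m ≤ 12 → |tt l a b (n + k + m) E| ≤ 1 := by
    intro m hm
    have := (ytc (n + k + m) (by omega) (by omega)).2
    linarith
  have hy8 := d12_yup d5 t6 (l := l) (by rw [← hLdef]; exact hl0)
    (by rw [← hLdef]; exact hl100) ht0 (by linarith) (htt 8 (by norm_num)) hr8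
  -- centre
  obtain ⟨p8, p10, p16⟩ := d12_phi8
  have hg16 : 0 ≤ gam ^ (2 * 8) := by positivity
  obtain ⟨k8P, k8Q, k8R⟩ := hk 8 (by norm_num)
  obtain ⟨k4P, k4Q, k4R⟩ := hk 4 (by norm_num)
  obtain ⟨k5P, k5Q, k5R⟩ := hk 5 (by norm_num)
  have z8 := (d7 l E a b (n + k + 8)).1
  have z4 := (d7 l E a b (n + k + 4)).1
  have z5 := (d7 l E a b (n + k + 5)).1
  obtain ⟨z0, z1, z2, -, -, -, z7⟩ := d7 l E a b (n + k)
  set P := mP l a b (n + k) E with hP
  set Q := mQ l a b (n + k) E with hQ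
  set R := mR l a b (n + k) E with hR
  have pp4 : phi ^ 4 = 5 + 3 * gam := by
    rw [show phi ^ 4 = (phi ^ 2) ^ 2 by ring, d11_pp]
    linear_combination d11_gg
  have qq4 : gam ^ 4 = 2 - 3 * gam := by
    rw [show gam ^ 4 = (gam ^ 2) ^ 2 by ring, d11_gg]
    linear_combination d11_gg
  rw [d11_pp, d11_gg] at z1
  rw [pp4, qq4] at z2
  have g1 := d11_g1
  have g2 := d11_g2
  have hRc : |R| ≤ 31 * L := by
    have : L * t ≤ L * 1 := by
      apply mul_le_mul_of_nonneg_left _ hl0.le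
      linarith
    linarith
  have yb : |yy l a b (n + k) E| ≤ 28000 * L ∧ |yy l a b (n + k + 1) E| ≤ 28000 * L ∧
      |yy l a b (n + k + 2) E| ≤ 28000 * L := by
    have hQa : |Q| ≤ 292 / 1000 * L := by
      rw [abs_of_nonneg (by linarith)]
      exact Q2
    have b1 : |(2 + gam) * P| ≤ 27 / 10 * (4000 * L) := by
      rw [abs_mul, abs_of_pos (show 0 < 2 + gam by linarith)]
      apply mul_le_mul (by linarith) Pc (abs_nonneg _) (by norm_num)
    have b2 : |(5 + 3 * gam) * P| ≤ 69 / 10 * (4000 * L) := by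
      rw [abs_mul, abs_of_pos (show 0 < 5 + 3 * gam by linarith)]
      apply mul_le_mul (by linarith) Pc (abs_nonneg _) (by norm_num)
    have b3 : |(1 - gam) * Q| ≤ 1 * (292 / 1000 * L) := by
      rw [abs_mul, abs_of_pos (show 0 < 1 - gam by linarith)]
      apply mul_le_mul (by linarith) hQa (abs_nonneg _) (by norm_num)
    have b4 : |(2 - 3 * gam) * Q| ≤ 1 * (292 / 1000 * L) := by
      rw [abs_mul, abs_of_pos (show 0 < 2 - 3 * gam by linarith)]
      apply mul_le_mul (by linarith) hQa (abs_nonneg _) (by norm_num)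
    have b0' := abs_le.mp Pc
    have b1' := abs_le.mp b1
    have b2' := abs_le.mp b2
    have b3' := abs_le.mp b3
    have b4' := abs_le.mp b4
    have b5' := abs_le.mp hQa
    have b6' := abs_le.mp hRc
    refine ⟨?_, ?_, ?_⟩
    · rw [z0, abs_le]
      constructor <;> linarith
    · rw [z1, abs_le]
      constructor <;> linarith
    · rw [z2, abs_le]
      constructor <;> linarith
  have hm : 28000 * L ≤ 1 / 10 := by
    norm_num at hlA
    linarith
  have z7' := z7 (28000 * L) hm (by rw [← hLdef]; exact hl100) yb.1 yb.2.1 yb.2.2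
  rw [hlL] at z7'
  have hlow8 : phi ^ 16 * P + gam ^ 16 * Q + R - 3 * (L * t) ≤ yy l a b (n + k + 8) E := by
    rw [z8]
    have a1 := (abs_le.mp k8P).1
    have a2 := (abs_le.mp k8Q).1
    have a3 := (abs_le.mp k8R).1
    norm_num at a1 a2 a3
    linarith
  obtain ⟨P1, P2, R1, hPQ⟩ := d12_center ht0 ht15 htL Q1 Q2 Pc hRc
    (Y := yy l a b (n + k) E + yy l a b (n + k + 1) E + yy l a b (n + k + 2) E)
    (by rw [z0, z1, z2]; ring) z7' hy8 p16 hg16 hlow8
  rcases le_or_gt (-(1 / 1000) * L) P with hcase | hcase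
  · -- case A
    have hLt : L * t ≤ 1 / 100000 * L := by
      rw [mul_comm]
      apply mul_le_mul_of_nonneg_right _ hl0.le
      refine ht15.trans ?_
      norm_num
    have R1' := abs_le.mp R1
    have hPn : ∀ f : ℝ, 0 ≤ f → -(f * (1 / 1000 * L)) ≤ f * P := by
      intro f hf
      have := mul_le_mul_of_nonneg_left hcase hf
      linarith
    have y4 : -(3 / 10 * L) ≤ yy l a b (n + k + 4) E := by
      rw [z4]
      have a1 := (abs_le.mp k4P).1
      have a2 := (abs_le.mp k4Q).1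
      have a3 := (abs_le.mp k4R).1
      norm_num at a1 a2 a3
      have a4 := hPn (phi ^ 8) (by positivity)
      have a5 : 0 ≤ gam ^ 8 * Q := mul_nonneg (by positivity) (by linarith)
      have a6 : phi ^ 8 * (1 / 1000 * L) ≤ 47 * (1 / 1000 * L) := by gcongr
      linarith
    have y5 : -(374 / 1000 * L) ≤ yy l a b (n + k + 5) E := by
      rw [z5]
      have a1 := (abs_le.mp k5P).1
      have a2 := (abs_le.mp k5Q).1
      have a3 := (abs_le.mp k5R).1
      norm_num at a1 a2 a3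
      have a4 := hPn (phi ^ 10) (by positivity)
      have a5 : 0 ≤ gam ^ 10 * Q := mul_nonneg (by positivity) (by linarith)
      have a6 : phi ^ 10 * (1 / 1000 * L) ≤ 12302 / 100 * (1 / 1000 * L) := by gcongr
      linarith
    have ta4 := d12_tau d5 l (E := E) (a := a) (b := b) (n := n + k + 4) (η := 3 / 10 * L)
      (by positivity) (by linarith) (htt 4 (by norm_num)) y4
    have ta5 := d12_tau d5 l (E := E) (a := a) (b := b) (n := n + k + 5) (η := 374 / 1000 * L)
      (by positivity) (by linarith) (htt 5 (by norm_num)) y5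
    have hLy := (d10 l (by rw [← hLdef]; exact hl0) (by rw [← hLdef]; exact hl100)
      (n + k + 4) E).1
    rw [← hLdef, ← ht] at hLy
    have hLy2 := (abs_le.mp hLy).2
    refine d12_caseA ht0 htL ta4 ta5 hB0 hgcdef
      (show 0 < gam ^ (n + k) by positivity) g3 ?_
    rw [show gam ^ (n + k) * gam ^ 4 = gam ^ (n + k + 4) by rw [← pow_add]]
    have e : n + k + 4 + 1 = n + k + 5 := by ring
    rw [e] at hLy2
    linarith
  · -- case B
    have hP0 : P < 0 := by linarith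
    have R1' : |R| ≤ 3 / 10 * |l| := by rw [← hLdef]; linarith
    have hQa : |Q| ≤ 3 / 10 * |l| := by
      rw [← hLdef, abs_of_nonneg (by linarith)]
      linarith
    have hfin := (d11 l E a b (n + k) (by rw [← hLdef]; exact hl0) (by rw [← hLdef]; exact hl11)
      hc1' hr14 (by rw [← hLdef]; exact hcase.le) (by rw [← hLdef]; linarith) R1' hQa).1
    rw [hlL] at hfin
    refine d12_B hl0 hlA hG G2 g4 Q3 hP0 (hPQ hP0) ?_ hfin
    have h1 := d11_gpow (n + k)
    calc (|(b : ℝ)| * Ly l E) ^ 2 = (gam ^ (n + k) * phi ^ (n + k)) ^ 2 *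
          (|(b : ℝ)| * Ly l E) ^ 2 := by rw [h1]; ring
      _ = gc ^ 2 * (phi ^ (2 * (n + k)) * Ly l E ^ 2) := by
          rw [hgcdef, show 2 * (n + k) = (n + k) * 2 by ring, pow_mul]
          ring

end

end Pool.Agent.Helper36.CV
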