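import Pool.Agent.Helper46.CV.D11d

set_option autoImplicit false

namespace Pool.Agent.Helper36.CV

open Complex

noncomputable section

/-! D11: the exit -/

theorem d11_exists_k {p μ : ℝ} (hp : 0 < p) (hpμ : p < μ ^ 2) :
    ∃ k : ℕ, μ ^ 2 ≤ phi ^ (2 * k) * p ∧ phi ^ (2 * k) * p ≤ 262 / 100 * μ ^ 2 := by
  classical
  have hμ2 : 0 < μ ^ 2 := hp.trans hpμ
  have hex : ∃ k : ℕ, μ ^ 2 ≤ phi ^ (2 * k) * p := by
    obtain ⟨k, hk⟩ := exists_nat_gt (μ ^ 2 / p)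
    refine ⟨k, ?_⟩
    rw [div_lt_iff₀ hp] at hk
    have := d11_phi_pow k
    nlinarith
  refine ⟨Nat.find hex, Nat.find_spec hex, ?_⟩
  rcases Nat.eq_zero_or_pos (Nat.find hex) with h0 | h0
  · rw [h0]
    simp only [mul_zero, pow_zero, one_mul]
    linarith
  · obtain ⟨m, hm⟩ : ∃ m, Nat.find hex = m + 1 := ⟨Nat.find hex - 1, by omega⟩
    have h1 : ¬ μ ^ 2 ≤ phi ^ (2 * m) * p := Nat.find_min hex (by omega)
    push Not at h1
    rw [hm, show 2 * (m + 1) = 2 * m + 2 by ring, pow_add, d11_pp]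
    have g2 := d11_g2
    have g0 := d11_gpos
    have : 0 < phi ^ (2 * m) * p := by
      have := d11_ppos
      positivity
    nlinarith

theorem d11_Q {Q g u p s L μ : ℝ} (hμ0 : 0 < μ) (hμ : μ ≤ 1 / 10 ^ 9) (hL : L = μ ^ 5)
    (hp : p ≤ 2 / 10 * L) (hg0 : 0 < g) (hgu : g * u = 1) (hs : s = u * p)
    (hs1 : μ ^ 2 ≤ s) (hs3 : s ≤ 262 / 100 * μ ^ 2)
    (hQ : |Q| ≤ g * (3 / 10 * L) + 1 / 10 * L ^ 2 + 24000 * μ ^ 4 * s ^ 2) :
    |Q| ≤ 170000 * μ ^ 8 ∧ g ≤ 2 / 10 * μ ^ 3 := by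
  have hμ2 : 0 < μ ^ 2 := by positivity
  have hg : g ≤ 2 / 10 * μ ^ 3 := by
    have h1 : g * s = p := by
      rw [hs]
      linear_combination p * hgu
    have h2 : g * μ ^ 2 ≤ g * s := by gcongr
    have h3 : g * μ ^ 2 ≤ (2 / 10 * μ ^ 3) * μ ^ 2 := by
      rw [hL] at hp
      calc g * μ ^ 2 ≤ p := by linarith
        _ ≤ 2 / 10 * μ ^ 5 := hp
        _ = (2 / 10 * μ ^ 3) * μ ^ 2 := by ring
    exact le_of_mul_le_mul_right h3 hμ2
  refine ⟨?_, hg⟩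
  have h1 : g * (3 / 10 * L) ≤ 6 / 100 * μ ^ 8 := by
    rw [hL]
    calc g * (3 / 10 * μ ^ 5) ≤ (2 / 10 * μ ^ 3) * (3 / 10 * μ ^ 5) := by gcongr
      _ = 6 / 100 * μ ^ 8 := by ring
  have h2 : L ^ 2 ≤ μ ^ 8 := by
    rw [hL]
    calc (μ ^ 5) ^ 2 = μ ^ 2 * μ ^ 8 := by ring
      _ ≤ (1 / 10 ^ 9) ^ 2 * μ ^ 8 := by gcongr
      _ ≤ 1 * μ ^ 8 := by
          apply mul_le_mul_of_nonneg_right (by norm_num) (by positivity)
      _ = μ ^ 8 := by ring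
  have hs0 : 0 ≤ s := hμ2.le.trans hs1
  have h3 : 24000 * μ ^ 4 * s ^ 2 ≤ 165000 * μ ^ 8 := by
    calc 24000 * μ ^ 4 * s ^ 2 ≤ 24000 * μ ^ 4 * (262 / 100 * μ ^ 2) ^ 2 := by gcongr
      _ = 24000 * (262 / 100) ^ 2 * μ ^ 8 := by ring
      _ ≤ 165000 * μ ^ 8 := by
          apply mul_le_mul_of_nonneg_right (by norm_num) (by positivity)
  have h8 : 0 < μ ^ 8 := by positivity
  linarith

/-- the final estimate -/
theorem d11_final {F Ls g u p s L μ Pc a w : ℝ} (hμ0 : 0 < μ) (hμ : μ ≤ 1 / 10 ^ 9)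
    (hL : L = μ ^ 5) (hpc : Pc = -p) (hp0 : 0 < p) (hp : p ≤ 2 / 10 * L) (hgu : g * u = 1)
    (hg0 : 0 < g) (hg : g ≤ 2 / 10 * μ ^ 3) (hs : s = u * p)
    (hs3 : s ≤ 262 / 100 * μ ^ 2)
    (hF : F = g * w) (hw1 : |w - 10 * a| ≤ 4000000 * μ ^ 8)
    (hP : |-a + s| ≤ 72 / 10000 * L ^ 2 * (u - 1) + 12000 * μ ^ 4 * s ^ 2)
    (hLs : Ls = L ^ 2) :
    |F + 10 * Pc| ≤ 1 / 10 * Ls := by
  have hL2 : L ^ 2 = μ ^ 10 := by rw [hL]; ring
  have hs0 : 0 < s := by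
    have : 0 < u := by
      by_contra hc
      push Not at hc
      nlinarith
    rw [hs]; positivity
  have h10 : 0 < μ ^ 10 := by positivity
  have e1 : F + 10 * Pc = g * (w - 10 * a) - 10 * (g * (-a + s)) := by
    rw [hF, hpc, hs]
    linear_combination (10 * p) * hgu
  have b1 : |g * (w - 10 * a)| ≤ 1 / 1000 * μ ^ 10 := by
    rw [abs_mul, abs_of_pos hg0]
    calc g * |w - 10 * a| ≤ (2 / 10 * μ ^ 3) * (4000000 * μ ^ 8) := by gcongr
      _ = 800000 * μ * μ ^ 10 := by ring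
      _ ≤ 800000 * (1 / 10 ^ 9) * μ ^ 10 := by gcongr
      _ ≤ 1 / 1000 * μ ^ 10 := by
          apply mul_le_mul_of_nonneg_right (by norm_num) (by positivity)
  have b2 : |g * (-a + s)| ≤ 74 / 10000 * μ ^ 10 := by
    rw [abs_mul, abs_of_pos hg0]
    calc g * |-a + s| ≤ g * (72 / 10000 * L ^ 2 * (u - 1) + 12000 * μ ^ 4 * s ^ 2) := by gcongr
      _ = 72 / 10000 * L ^ 2 * (g * u - g) + 12000 * μ ^ 4 * (g * s * s) := by ring
      _ = 72 / 10000 * μ ^ 10 * (1 - g) + 12000 * μ ^ 4 * (p * s) := by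
          have : g * s = p := by
            rw [hs]
            linear_combination p * hgu
          rw [hgu, hL2, this]
      _ ≤ 72 / 10000 * μ ^ 10 + 1 / 10000 * μ ^ 10 := by
          have h1 : 72 / 10000 * μ ^ 10 * (1 - g) ≤ 72 / 10000 * μ ^ 10 := by nlinarith
          have h2 : 12000 * μ ^ 4 * (p * s) ≤ 1 / 10000 * μ ^ 10 := by
            calc 12000 * μ ^ 4 * (p * s) ≤
                12000 * μ ^ 4 * ((2 / 10 * μ ^ 5) * (262 / 100 * μ ^ 2)) := by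
                  rw [hL] at hp
                  gcongr
              _ = 12000 * (2 / 10) * (262 / 100) * μ * μ ^ 10 := by ring
              _ ≤ 12000 * (2 / 10) * (262 / 100) * (1 / 10 ^ 9) * μ ^ 10 := by gcongr
              _ ≤ 1 / 10000 * μ ^ 10 := by
                  apply mul_le_mul_of_nonneg_right (by norm_num) (by positivity)
          linarith
      _ ≤ 74 / 10000 * μ ^ 10 := by nlinarith
  rw [e1, hLs, hL2]
  have b1' := abs_le.mp b1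
  have b2' := abs_le.mp b2
  rw [abs_le]
  constructor <;> linarith

theorem d11_wlem {S v μ z : ℝ} (hμ0 : 0 < μ) (hμ : μ ≤ 1 / 10 ^ 9) (hS0 : 0 ≤ S) (s6 : S ≤ 6 * μ)
    (hv1 : S ≤ v) (hv2 : v ≤ S + μ ^ 7 / 16 * phi) (sg : |S ^ 2 - z| ≤ 3000000 * μ ^ 8) :
    |v ^ 2 - z| ≤ 4000000 * μ ^ 8 := by
  have hphi : phi ≤ 162 / 100 := by rw [d11_phi]; linarith [d11_g2]
  have h7' : μ ^ 7 / 16 * phi ≤ 102 / 1000 * μ ^ 7 := by
    have : 0 < μ ^ 7 := by positivity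
    nlinarith
  have hμ71 : μ ^ 7 ≤ μ := by
    calc μ ^ 7 = μ ^ 6 * μ := by ring
      _ ≤ (1 / 10 ^ 9) ^ 6 * μ := by gcongr
      _ ≤ 1 * μ := by apply mul_le_mul_of_nonneg_right (by norm_num) hμ0.le
      _ = μ := one_mul μ
  have h1 : 0 ≤ v ^ 2 - S ^ 2 := by nlinarith
  have h2 : v ^ 2 - S ^ 2 ≤ 2 * μ ^ 8 := by
    have e1 : v - S ≤ 102 / 1000 * μ ^ 7 := by linarith
    have e2 : v + S ≤ 13 * μ := by linarith
    calc v ^ 2 - S ^ 2 = (v - S) * (v + S) := by ring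
      _ ≤ (102 / 1000 * μ ^ 7) * (13 * μ) := by
          apply mul_le_mul e1 e2 (by linarith) (by positivity)
      _ = (102 / 1000 * 13) * μ ^ 8 := by ring
      _ ≤ 2 * μ ^ 8 := by
          apply mul_le_mul_of_nonneg_right (by norm_num) (by positivity)
  have h3 := abs_le.mp sg
  have h8 : 0 < μ ^ 8 := by positivity
  rw [abs_le]
  constructor <;> linarith

theorem d11_neg {P Q R s μ2 : ℝ} (h0 : 0 < μ2) (hs1 : μ2 ≤ s) (hs2 : s ≤ 262 / 100 * μ2)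
    (hP : |P + s| ≤ 1 / 100 * s) (hQ : |Q| ≤ 1 / 100 * μ2) (hR : |R| ≤ 1 / 100 * μ2) :
    P + Q + R < 0 ∧ (2 + gam) * P + (1 - gam) * Q - R < 0 ∧ 98 / 100 * μ2 ≤ -P ∧
      -P ≤ 31 / 10 * μ2 := by
  have g1 := d11_g1
  have g2 := d11_g2
  have hP' := abs_le.mp hP
  have hQ' := abs_le.mp hQ
  have hR' := abs_le.mp hR
  have hPn : P ≤ -(98 / 100) * μ2 := by linarith
  refine ⟨by linarith, ?_, by linarith, by linarith⟩
  have h1 : (2 + gam) * P ≤ 2 * P := by nlinarith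
  have h2 : (1 - gam) * Q ≤ 1 / 100 * μ2 := by nlinarith
  linarith

theorem d11_small (x μ : ℝ) (hμ0 : 0 < μ) (hμ : μ ≤ 1 / 10 ^ 9) (hx : 0 ≤ x)
    (hx' : x ^ 2 ≤ 50 * μ ^ 2) : |x| ≤ 1 := by
  rw [abs_of_nonneg hx]
  by_contra hcon
  push Not at hcon
  have h1 : 50 * μ ^ 2 ≤ 1 / 2 := by
    calc 50 * μ ^ 2 ≤ 50 * (1 / 10 ^ 9) ^ 2 := by gcongr
      _ ≤ 1 / 2 := by norm_num
  nlinarith

theorem st_D11 (h5 : ST_D5) (h6 : ST_D6) (h7 : ST_D7) (h10 : ST_D10) (t1 : ST_T1) (t6 : ST_T6)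
    (t8 : ST_T8) : ST_D11 := by
  refine ⟨(1 / 10 ^ 9) ^ 5, by positivity, ?_⟩
  intro l E a b c hl0 hl1 hc hr hP1 hP2 hR hQ
  obtain ⟨μ, hμ0, hμL⟩ : ∃ μ : ℝ, 0 < μ ∧ |l| = μ ^ 5 := by
    refine ⟨|l| ^ ((5 : ℕ) : ℝ)⁻¹, Real.rpow_pos_of_pos hl0 _, ?_⟩
    exact (Real.rpow_inv_natCast_pow hl0.le (by norm_num)).symm
  have hμ : μ ≤ 1 / 10 ^ 9 := by
    by_contra hcon
    push Not at hcon
    have : (1 / 10 ^ 9 : ℝ) ^ 5 < μ ^ 5 := by gcongr
    linarith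
  have hμ3 : μ ^ 5 ≤ 1 / 10000 := by
    calc μ ^ 5 ≤ (1 / 10 ^ 9) ^ 5 := by gcongr
      _ ≤ 1 / 10000 := by norm_num
  have hl2 : |l| ≤ 1 / 100 := by rw [hμL]; linarith
  have hμ2 : 0 < μ ^ 2 := by positivity
  have hμ23 : μ ^ 5 ≤ 1 / 10 ^ 12 * μ ^ 2 := by
    calc μ ^ 5 = μ ^ 3 * μ ^ 2 := by ring
      _ ≤ (1 / 10 ^ 9) ^ 3 * μ ^ 2 := by gcongr
      _ ≤ 1 / 10 ^ 12 * μ ^ 2 := by
          apply mul_le_mul_of_nonneg_right (by norm_num) hμ2.le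
  set p := -mP l a b c E with hp
  have hp0 : 0 < p := by rw [hp]; linarith
  have hp2 : p ≤ 2 / 10 * |l| := by rw [hp]; linarith
  have hpμ : p < μ ^ 2 := by
    rw [hμL] at hp2
    linarith
  obtain ⟨k, hk1, hk2⟩ := d11_exists_k hp0 hpμ
  have hk3 : phi ^ (2 * k) * (-mP l a b c E) ≤ 3 * μ ^ 2 := by
    rw [← hp]; linarith
  obtain ⟨iP, iQ, -⟩ := d11_ind h5 h6 h7 hμ0 hμ hμL hP1 hR hQ k hk3
  obtain ⟨⟨cP, cQ, cR⟩, c0, c1, c2⟩ := d11_at h5 h6 h7 hμ0 hμ hμL hP1 hR hQ k hk3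
  obtain ⟨r0, r1, -⟩ := d11_phase h5 h6 h7 t6 hμ0 hμ hμL hr hP1 hR hQ k hk3
  rw [← hp] at iP iQ cP
  set N := c + k with hN
  set s := phi ^ (2 * k) * p with hs
  obtain ⟨y0, y1, -, -, -, -, -⟩ := h7 l E a b N
  rw [d11_pp, d11_gg] at y1
  have gpw : 0 < gam ^ (2 * k) := by
    have := d11_gpos
    positivity
  obtain ⟨qB, gB⟩ := d11_Q hμ0 hμ hμL hp2 gpw (d11_gpow (2 * k)) hs hk1 hk2 iQ
  have hμ82 : 170000 * μ ^ 8 ≤ 1 / 100 * μ ^ 2 := by
    calc 170000 * μ ^ 8 = 170000 * μ ^ 6 * μ ^ 2 := by ring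
      _ ≤ 170000 * (1 / 10 ^ 9) ^ 6 * μ ^ 2 := by gcongr
      _ ≤ 1 / 100 * μ ^ 2 := by
          apply mul_le_mul_of_nonneg_right (by norm_num) hμ2.le
  obtain ⟨neg0, neg1, ha1, ha2⟩ := d11_neg (μ2 := μ ^ 2) hμ2 hk1 hk2 cP (qB.trans hμ82)
    (cR.trans (by rw [hμL]; linarith))
  -- negative y
  have yneg0 : yy l a b N E < 0 := by
    rw [y0]
    exact neg0
  have yneg1 : yy l a b (N + 1) E < 0 := by
    rw [y1]
    exact neg1
  have hPol0 : Pol 0 = 0 := by unfold Pol; norm_num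
  have tneg : ∀ m, yy l a b m E < 0 → tt l a b m E < 0 := by
    intro m hm
    by_contra hcon
    push Not at hcon
    have := h5.2.2.monotone hcon
    rw [hPol0] at this
    have h2 : yy l a b m E = Pol (tt l a b m E) := rfl
    linarith
  have tn0 := tneg _ yneg0
  have tn1 := tneg _ yneg1
  obtain ⟨Th0, X0, X0', ch0, ta0⟩ := d11_hyp t6 hl0 hl2 tn0 r0
  obtain ⟨Th1, X1, X1', ch1, ta1⟩ := d11_hyp t6 hl0 hl2 tn1 r1
  have hN1 : 1 ≤ N := by omega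
  have hesc := t8 l hl0 hl2 N E hN1 X0'.le X1'.le
  -- labels
  have hlab : ∀ m, Th l (N + m) E = Real.pi * (pp a b (N + m) : ℝ) ∧
      Th l (N + m + 1) E = Real.pi * (pp a b (N + m + 1) : ℝ) := by
    intro m
    induction m with
    | zero => exact ⟨Th0, Th1⟩
    | succ m ih =>
      refine ⟨by rw [show N + (m + 1) = N + m + 1 by ring]; exact ih.2, ?_⟩
      rw [show N + (m + 1) + 1 = N + m + 2 by ring]
      have h1 : Th l (N + m + 2) E = Th l (N + m + 1) E + Th l (N + m) E + D l (N + m) E := rfl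
      have h2 : pp a b (N + m + 2) = pp a b (N + m + 1) + pp a b (N + m) := rfl
      rw [h1, h2, ih.1, ih.2, (hesc (N + m) (by omega)).2.1]
      push_cast
      ring
  have hlab' : ∃ n0, ∀ n, n0 ≤ n → Th l n E = Real.pi * (pp a b n : ℝ) := by
    refine ⟨N, fun n hn => ?_⟩
    obtain ⟨m, rfl⟩ := Nat.exists_eq_add_of_le hn
    exact (hlab m).1
  have hCs : E ∉ Cs l := by
    intro hE
    rcases hE N with h | h
    · linarith
    · linarith
  refine ⟨?_, hlab', hCs⟩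
  -- growth rates
  have ctt0 := (abs_le.mp c0).1
  have ctt1 := (abs_le.mp c1).1
  have hx2 : tau l N E ^ 2 ≤ 50 * μ ^ 2 := by
    have := d11_half_sq _ ta0
    rw [ch0] at this
    linarith
  have hy2 : tau l (N + 1) E ^ 2 ≤ 50 * μ ^ 2 := by
    have := d11_half_sq _ ta1
    rw [ch1] at this
    linarith
  have hsmall : ∀ x : ℝ, 0 ≤ x → x ^ 2 ≤ 50 * μ ^ 2 → |x| ≤ 1 :=
    fun x hx hx' => d11_small x μ hμ0 hμ hx hx'
  have hxx : |yy l a b N E + tau l N E ^ 2 / 2| ≤ tau l N E ^ 8 / 100 := by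
    have := h5.2.1 (tau l N E) (hsmall _ ta0 hx2)
    rw [ch0, show 1 - (1 - tt l a b N E) = tt l a b N E by ring] at this
    exact this
  have hyy : |yy l a b (N + 1) E + tau l (N + 1) E ^ 2 / 2| ≤ tau l (N + 1) E ^ 8 / 100 := by
    have := h5.2.1 (tau l (N + 1) E) (hsmall _ ta1 hy2)
    rw [ch1, show 1 - (1 - tt l a b (N + 1) E) = tt l a b (N + 1) E by ring] at this
    exact this
  obtain ⟨sg, xμ, yμ, s6⟩ := d11_sigma hμ0 hμ ta0 ta1 hxx hyy hx2 hy2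
    (a := -mP l a b N E) (Q := mQ l a b N E) (R := mR l a b N E)
    (by rw [y0]; ring) (by rw [y1]; ring) ha1 ha2 qB (by rw [← hμL]; exact cR)
  -- growth of tau
  have htau : ∀ m, μ ≤ tau l (N + m) E ∧ μ ≤ tau l (N + m + 1) E := by
    intro m
    induction m with
    | zero => exact ⟨xμ, yμ⟩
    | succ m ih =>
      refine ⟨by rw [show N + (m + 1) = N + m + 1 by ring]; exact ih.2, ?_⟩
      have h1 := (hesc (N + m) (by omega)).2.2.1
      rw [show N + (m + 1) + 1 = N + m + 2 by ring]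
      linarith [ih.1, ih.2]
  have hI : l ^ 2 / 4 = μ ^ 10 / 4 := by
    rw [← sq_abs, hμL]; ring
  have hδ : ∀ j, N ≤ j → tau l (j + 2) E - tau l (j + 1) E - tau l j E ≤ μ ^ 7 / 16 := by
    intro j hj
    obtain ⟨m, rfl⟩ := Nat.exists_eq_add_of_le hj
    have e0 := hesc (N + m) (by omega)
    have e1 := hesc (N + m + 1) (by omega)
    have e2 := hesc (N + m + 2) (by omega)
    have hT := (t1 l E (N + m)).1
    have h1 := d11_delta (μ := μ) (I := l ^ 2 / 4) hμ0 (by positivity)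
      (by rw [hI]
          have : μ ^ 10 ≤ 1 := by
            calc μ ^ 10 ≤ (1 / 10 ^ 9) ^ 10 := by gcongr
              _ ≤ 1 := by norm_num
          linarith)
      (d11_tau_cosh e0.1) (d11_tau_cosh e1.1) (d11_tau_cosh e2.1) hT
      (htau m).1 (htau m).2 (by linarith [e0.2.2.1])
    rw [hI] at h1
    have h2 : (4 * μ ^ 3) * (tau l (N + m + 2) E - tau l (N + m + 1) E - tau l (N + m) E) ≤
        (4 * μ ^ 3) * (μ ^ 7 / 16) := by
      refine h1.trans (le_of_eq ?_)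
      ring
    exact le_of_mul_le_mul_left h2 (by positivity)
  have hup := d11_Ly_up h10 hl0 hl2 hδ (by positivity)
  have hlow := (h10 l hl0 hl2 N E).2 (fun j hj => (hesc j hj).2.2.1)
  set x := tau l N E
  set y := tau l (N + 1) E
  set Ly0 := Ly l E
  have hfN : 0 < phi ^ N := by have := d11_ppos; positivity
  have hgN : gam ^ N * phi ^ N = 1 := d11_gpow N
  set v := phi ^ N * Ly0 with hv
  have hv1 : y + gam * x ≤ v := by
    have := mul_le_mul_of_nonneg_left hlow hfN.le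
    calc y + gam * x = phi ^ N * (gam ^ N * (y + gam * x)) := by
          linear_combination (-(y + gam * x)) * hgN
      _ ≤ v := this
  have hv2 : v ≤ y + gam * x + μ ^ 7 / 16 * phi := by
    have := mul_le_mul_of_nonneg_left hup hfN.le
    calc v ≤ phi ^ N * (gam ^ N * (y + gam * x + μ ^ 7 / 16 * phi)) := this
      _ = y + gam * x + μ ^ 7 / 16 * phi := by
          linear_combination (y + gam * x + μ ^ 7 / 16 * phi) * hgN
  have hw : |v ^ 2 - 10 * (-mP l a b N E)| ≤ 4000000 * μ ^ 8 :=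
    d11_wlem hμ0 hμ (add_nonneg ta1 (mul_nonneg d11_gpos.le ta0)) s6 hv1 hv2 sg
  have hF : phi ^ (2 * c) * Ly0 ^ 2 = gam ^ (2 * k) * v ^ 2 := by
    have h1 : phi ^ N * phi ^ N = phi ^ (2 * c) * phi ^ (2 * k) := by
      rw [← pow_add, ← pow_add]
      congr 1
      omega
    have h2 := d11_gpow (2 * k)
    rw [hv]
    calc phi ^ (2 * c) * Ly0 ^ 2 = (gam ^ (2 * k) * phi ^ (2 * k)) * phi ^ (2 * c) * Ly0 ^ 2 := by
          rw [h2, one_mul]
      _ = gam ^ (2 * k) * ((phi ^ (2 * c) * phi ^ (2 * k)) * Ly0 ^ 2) := by ring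
      _ = gam ^ (2 * k) * ((phi ^ N * phi ^ N) * Ly0 ^ 2) := by rw [h1]
      _ = _ := by ring
  exact d11_final hμ0 hμ hμL (show mP l a b c E = -p by rw [hp]; ring) hp0 hp2
    (d11_gpow (2 * k)) gpw gB hs hk2 hF hw (by rw [neg_neg]; exact iP) (sq_abs l).symm

end

end Pool.Agent.Helper36.CV
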