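import Pool.Agent.Helper36.CV.StmtsW

set_option autoImplicit false

namespace Pool.Agent.Helper36.CV

open Complex

noncomputable section

/-! D11, part a: golden ratio constants, the estimate of the mode errors, induction -/

theorem d11_gp : gam * phi = 1 := by
  unfold gam phi
  have h := Real.mul_self_sqrt (show (0:ℝ) ≤ 5 by norm_num)
  nlinarith

theorem d11_phi : phi = 1 + gam := by
  unfold gam phi
  ring

theorem d11_gg : gam ^ 2 = 1 - gam := by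
  have h := d11_gp
  rw [d11_phi] at h
  nlinarith

theorem d11_pp : phi ^ 2 = 2 + gam := by
  have h := d11_gg
  rw [d11_phi]
  nlinarith

theorem d11_g1 : 618 / 1000 < gam := by
  unfold gam
  have h : (2236 / 1000 : ℝ) < Real.sqrt 5 := by
    apply Real.lt_sqrt_of_sq_lt
    norm_num
  linarith

theorem d11_g2 : gam < 6181 / 10000 := by
  unfold gam
  have h : Real.sqrt 5 < (22362 / 10000 : ℝ) := by
    rw [Real.sqrt_lt' (by norm_num)]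
    norm_num
  linarith

theorem d11_gpos : 0 < gam := by linarith [d11_g1]

theorem d11_ppos : 0 < phi := by rw [d11_phi]; linarith [d11_g1]

theorem d11_gpow (n : ℕ) : gam ^ n * phi ^ n = 1 := by
  rw [← mul_pow, d11_gp, one_pow]

/-- inverse of `Pol` -/
theorem d11_tt_le (h5 : ST_D5) {t η : ℝ} (hη : η ≤ 1 / 10) (h : |Pol t| ≤ η) :
    |t| ≤ 11 / 10 * η := by
  obtain ⟨-, -, hm⟩ := h5
  have h0 : 0 ≤ η := le_trans (abs_nonneg _) h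
  have h1 := abs_le.mp h
  rw [abs_le]
  constructor
  · by_contra hc
    push Not at hc
    have h2 := hm (show t < -(11 / 10 * η) from hc)
    have h3 : Pol (-(11 / 10 * η)) ≤ -η := by
      unfold Pol
      have h4 : 0 ≤ η ^ 2 := sq_nonneg η
      have h5' : 0 ≤ η ^ 3 := by positivity
      nlinarith
    linarith [h1.1]
  · by_contra hc
    push Not at hc
    have h2 := hm (show 11 / 10 * η < t from hc)
    have h3 : η ≤ Pol (11 / 10 * η) := by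
      unfold Pol
      have h4 : 0 ≤ η ^ 2 := sq_nonneg η
      have h5' : 0 ≤ η ^ 3 := by positivity
      nlinarith
    linarith [h1.2]

theorem d11_yb (h7 : ST_D7) {l E : ℝ} {a b : ℤ} {n : ℕ} {s L : ℝ}
    (hP : |mP l a b n E| ≤ 101 / 100 * s) (hQ : |mQ l a b n E| ≤ L) (hR : |mR l a b n E| ≤ L) :
    |yy l a b n E| ≤ 7 * (s + L) ∧ |yy l a b (n + 1) E| ≤ 7 * (s + L) ∧
      |yy l a b (n + 2) E| ≤ 7 * (s + L) := by
  obtain ⟨h1, h2, h3, -⟩ := h7 l E a b n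
  have hs : 0 ≤ s := by linarith [abs_nonneg (mP l a b n E)]
  have hL : 0 ≤ L := le_trans (abs_nonneg _) hQ
  have g1 := d11_g1
  have g2 := d11_g2
  have gg := d11_gg
  have pp2 := d11_pp
  have p4 : phi ^ 4 = 5 + 3 * gam := by
    rw [show phi ^ 4 = (phi ^ 2) ^ 2 by ring, pp2]
    nlinarith
  have q4 : gam ^ 4 = 2 - 3 * gam := by
    rw [show gam ^ 4 = (gam ^ 2) ^ 2 by ring, gg]
    nlinarith
  rw [pp2, gg] at h2
  rw [p4, q4] at h3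
  have hP' := abs_le.mp hP
  have hQ' := abs_le.mp hQ
  have hR' := abs_le.mp hR
  rw [h1, h2, h3]
  refine ⟨?_, ?_, ?_⟩
  · rw [abs_le]
    constructor <;> nlinarith
  · rw [abs_le]
    constructor <;> nlinarith
  · rw [abs_le]
    constructor <;> nlinarith

theorem d11_num {m s L μ : ℝ} (hμ0 : 0 < μ) (hμ : μ ≤ 1 / 10 ^ 9) (hL : L = μ ^ 5) (hs0 : 0 ≤ s)
    (hs : s ≤ 3 * μ ^ 2) (hm : m = 8 * (s + L)) :
    m ≤ 25 * μ ^ 2 ∧ m ≤ 1 / 10 ∧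
      L ^ 2 / 12 + (4 * m ^ 4 + m * L ^ 2) ≤ 94 / 1000 * L ^ 2 + 400000 * μ ^ 4 * s ^ 2 := by
  have hμ2 : 0 < μ ^ 2 := by positivity
  have hμ1 : μ ^ 2 ≤ 1 / 10 ^ 18 := by
    calc μ ^ 2 ≤ (1 / 10 ^ 9) ^ 2 := by gcongr
      _ = 1 / 10 ^ 18 := by norm_num
  have hL0 : 0 < L := by rw [hL]; positivity
  have hL1 : L ≤ 1 / 10 * μ ^ 2 := by
    rw [hL]
    calc μ ^ 5 = μ ^ 2 * μ ^ 3 := by ring
      _ ≤ μ ^ 2 * (1 / 10 ^ 9) ^ 3 := by gcongr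
      _ ≤ 1 / 10 * μ ^ 2 := by nlinarith
  have hm0 : 0 < m := by rw [hm]; positivity
  have hm1 : m ≤ 25 * μ ^ 2 := by
    rw [hm]
    linarith
  refine ⟨hm1, by nlinarith, ?_⟩
  have hm2 : m ^ 2 ≤ 625 * μ ^ 4 := by
    calc m ^ 2 ≤ (25 * μ ^ 2) ^ 2 := by gcongr
      _ = 625 * μ ^ 4 := by ring
  have hm3 : m ^ 2 ≤ 128 * (s ^ 2 + L ^ 2) := by
    rw [hm]
    nlinarith [sq_nonneg (s - L)]
  have hm4 : m ^ 4 ≤ (625 * μ ^ 4) * (128 * (s ^ 2 + L ^ 2)) := by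
    calc m ^ 4 = m ^ 2 * m ^ 2 := by ring
      _ ≤ (625 * μ ^ 4) * (128 * (s ^ 2 + L ^ 2)) := by gcongr
  have hL2 : 0 < L ^ 2 := by positivity
  have hμ4 : μ ^ 4 ≤ 1 / 10 ^ 36 := by
    calc μ ^ 4 ≤ (1 / 10 ^ 9) ^ 4 := by gcongr
      _ = 1 / 10 ^ 36 := by norm_num
  have h5 : m * L ^ 2 ≤ 1 / 1000 * L ^ 2 := by
    apply mul_le_mul_of_nonneg_right _ hL2.le
    linarith
  have h6 : μ ^ 4 * L ^ 2 ≤ 1 / 10 ^ 36 * L ^ 2 := by gcongr
  have h7 : 0 ≤ μ ^ 4 * s ^ 2 := by positivity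
  nlinarith

/-- the mode error `ee` -/
theorem d11_ee (h5 : ST_D5) (h6 : ST_D6) (h7 : ST_D7) {l E : ℝ} {a b : ℤ} {n : ℕ} {s μ : ℝ}
    (hμ0 : 0 < μ) (hμ : μ ≤ 1 / 10 ^ 9) (hl : |l| = μ ^ 5) (hs0 : 0 ≤ s) (hs : s ≤ 3 * μ ^ 2)
    (hP : |mP l a b n E| ≤ 101 / 100 * s) (hQ : |mQ l a b n E| ≤ |l|)
    (hR : |mR l a b n E| ≤ |l|) :
    |ee l a b n E| ≤ 94 / 1000 * l ^ 2 + 400000 * μ ^ 4 * s ^ 2 ∧
      |tt l a b n E| ≤ 25 * μ ^ 2 ∧ |tt l a b (n + 1) E| ≤ 25 * μ ^ 2 ∧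
      |tt l a b (n + 2) E| ≤ 25 * μ ^ 2 := by
  obtain ⟨y0, y1, y2⟩ := d11_yb h7 hP hQ hR
  obtain ⟨m1, m2, m3⟩ := d11_num hμ0 hμ hl hs0 hs rfl
  have hsl : 0 ≤ s + |l| := add_nonneg hs0 (abs_nonneg l)
  have hη : 7 * (s + |l|) ≤ 1 / 10 := by linarith
  have t0 := d11_tt_le h5 hη (show |Pol (tt l a b n E)| ≤ _ from y0)
  have t1 := d11_tt_le h5 hη (show |Pol (tt l a b (n + 1) E)| ≤ _ from y1)
  have t2 := d11_tt_le h5 hη (show |Pol (tt l a b (n + 2) E)| ≤ _ from y2)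
  have hμ3 : μ ^ 5 ≤ 1 / 100 := by
    calc μ ^ 5 ≤ (1 / 10 ^ 9) ^ 5 := by gcongr
      _ ≤ 1 / 100 := by norm_num
  have e := (h6 l E a b n).2.2 (8 * (s + |l|)) m2 (by rw [hl]; exact hμ3) (by linarith) (by linarith)
  rw [sq_abs] at m3
  refine ⟨?_, by linarith, by linarith, by linarith⟩
  have e' := abs_le.mp e
  have hl2 : 0 ≤ l ^ 2 := sq_nonneg l
  rw [abs_le]
  constructor <;> linarith

end

end Pool.Agent.Helper36.CV
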