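import Pool.Agent.Helper46.CV.D11a

set_option autoImplicit false

namespace Pool.Agent.Helper36.CV

open Complex

noncomputable section

/-! D11, part b: propagation of the modes -/

/-- from the inductive bounds to the crude bounds -/
theorem d11_crude {P Q R g s p L μ u : ℝ} {i : ℕ} (hμ0 : 0 < μ) (hμ : μ ≤ 1 / 10 ^ 9)
    (hL : L = μ ^ 5) (hp1 : 1 / 1000 * L ≤ p) (hu : (i : ℝ) + 1 ≤ u) (hs : s = u * p)
    (hs3 : s ≤ 3 * μ ^ 2) (hg0 : 0 ≤ g) (hg1 : g ≤ 1)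
    (hP : |P + s| ≤ 72 / 10000 * L ^ 2 * (u - 1) + 12000 * μ ^ 4 * s ^ 2)
    (hQ : |Q| ≤ g * (3 / 10 * L) + 1 / 10 * L ^ 2 + 24000 * μ ^ 4 * s ^ 2)
    (hR : |R| ≤ 3 / 10 * L + i * (2 / 100) * L ^ 2 + 24000 * μ ^ 4 * s ^ 2) :
    |P| ≤ 101 / 100 * s ∧ |P + s| ≤ 1 / 100 * s ∧ |Q| ≤ L ∧ |R| ≤ L := by
  have hL0 : 0 < L := by rw [hL]; positivity
  have hμ1 : μ ≤ 1 / 1000 := by
    refine hμ.trans ?_
    norm_num
  have hLs : L ≤ 1 / 10 ^ 12 * μ ^ 3 := by
    rw [hL]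
    calc μ ^ 5 = μ ^ 2 * μ ^ 3 := by ring
      _ ≤ (1 / 10 ^ 9) ^ 2 * μ ^ 3 := by gcongr
      _ ≤ 1 / 10 ^ 12 * μ ^ 3 := by
          have : 0 < μ ^ 3 := by positivity
          nlinarith
  have hu0 : 0 < u := by
    have : (0 : ℝ) ≤ i := Nat.cast_nonneg i
    linarith
  have hp0 : 0 < p := by nlinarith
  have hs0 : 0 < s := by rw [hs]; positivity
  -- u * L ≤ 1000 * s
  have huL : u * L ≤ 1000 * s := by
    rw [hs]
    nlinarith
  have h1 : L ^ 2 * u ≤ 1 / 1000 * s := by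
    calc L ^ 2 * u = L * (u * L) := by ring
      _ ≤ L * (1000 * s) := by gcongr
      _ ≤ 1 / 1000 * s := by
          have : L ≤ 1 / 10 ^ 6 := by
            refine hLs.trans ?_
            have : μ ^ 3 ≤ 1 := by
              calc μ ^ 3 ≤ 1 ^ 3 := by gcongr; linarith
                _ = 1 := by norm_num
            nlinarith
          nlinarith
  have hμ4 : μ ^ 4 * s ^ 2 ≤ 3 * (μ ^ 6 * s) := by
    calc μ ^ 4 * s ^ 2 = μ ^ 4 * s * s := by ring
      _ ≤ μ ^ 4 * (3 * μ ^ 2) * s := by gcongr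
      _ = 3 * (μ ^ 6 * s) := by ring
  have hμ6 : μ ^ 6 * s ≤ 1 / 10 ^ 9 * s := by
    have : μ ^ 6 ≤ 1 / 10 ^ 9 := by
      calc μ ^ 6 ≤ (1 / 10 ^ 9) ^ 6 := by gcongr
        _ ≤ 1 / 10 ^ 9 := by norm_num
    gcongr
  have hPs : |P + s| ≤ 1 / 100 * s := by nlinarith
  have hμ8 : μ ^ 4 * s ^ 2 ≤ 9 / 10 ^ 9 * L := by
    calc μ ^ 4 * s ^ 2 ≤ μ ^ 4 * (3 * μ ^ 2) ^ 2 := by gcongr
      _ = 9 * (μ ^ 3 * μ ^ 5) := by ring
      _ ≤ 9 * (1 / 10 ^ 9 * μ ^ 5) := by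
          have : μ ^ 3 ≤ 1 / 10 ^ 9 := by
            calc μ ^ 3 ≤ (1 / 10 ^ 9) ^ 3 := by gcongr
              _ ≤ 1 / 10 ^ 9 := by norm_num
          gcongr
      _ = 9 / 10 ^ 9 * L := by rw [hL]; ring
  have hL2 : L ^ 2 ≤ 1 / 1000 * L := by
    have : L ≤ 1 / 1000 := by
      refine hLs.trans ?_
      have : μ ^ 3 ≤ 1 := by
        calc μ ^ 3 ≤ 1 ^ 3 := by gcongr; linarith
          _ = 1 := by norm_num
      nlinarith
    nlinarith
  have hiL : (i : ℝ) * L ^ 2 ≤ 1 / 100 * L := by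
    have h2 : (i : ℝ) * L ≤ 3000 * μ ^ 2 := by nlinarith
    have h3 : 3000 * μ ^ 2 ≤ 1 / 100 := by
      have : μ ^ 2 ≤ 1 / 10 ^ 9 := by
        calc μ ^ 2 ≤ (1 / 10 ^ 9) ^ 2 := by gcongr
          _ ≤ 1 / 10 ^ 9 := by norm_num
      linarith
    nlinarith
  refine ⟨?_, hPs, ?_, ?_⟩
  · have h2 := abs_le.mp hPs
    rw [abs_le]
    constructor <;> linarith
  · have h3 : g * (3 / 10 * L) ≤ 3 / 10 * L := by nlinarith
    linarith
  · linarith

theorem d11_phi_pow (i : ℕ) : (i : ℝ) + 1 ≤ phi ^ (2 * i) := by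
  induction i with
  | zero => simp
  | succ i ih =>
    rw [show 2 * (i + 1) = 2 * i + 2 by ring, pow_add, d11_pp]
    push_cast
    have h1 := d11_g1
    have h2 : (0 : ℝ) ≤ i := Nat.cast_nonneg i
    have h3 : 2 * (phi ^ (2 * i)) ≤ phi ^ (2 * i) * (2 + gam) := by
      have : 0 ≤ phi ^ (2 * i) := by
        have := d11_ppos
        positivity
      nlinarith
    linarith

theorem d11_ind (h5 : ST_D5) (h6 : ST_D6) (h7 : ST_D7) {l E : ℝ} {a b : ℤ} {c : ℕ} {μ : ℝ}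
    (hμ0 : 0 < μ) (hμ : μ ≤ 1 / 10 ^ 9) (hl : |l| = μ ^ 5)
    (hP1 : mP l a b c E ≤ -(1 / 1000) * |l|)
    (hR : |mR l a b c E| ≤ 3 / 10 * |l|) (hQ : |mQ l a b c E| ≤ 3 / 10 * |l|) (i : ℕ) :
    phi ^ (2 * i) * (-mP l a b c E) ≤ 3 * μ ^ 2 →
    |mP l a b (c + i) E + phi ^ (2 * i) * (-mP l a b c E)| ≤
        72 / 10000 * |l| ^ 2 * (phi ^ (2 * i) - 1) +
          12000 * μ ^ 4 * (phi ^ (2 * i) * (-mP l a b c E)) ^ 2 ∧
      |mQ l a b (c + i) E| ≤ gam ^ (2 * i) * (3 / 10 * |l|) + 1 / 10 * |l| ^ 2 +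
          24000 * μ ^ 4 * (phi ^ (2 * i) * (-mP l a b c E)) ^ 2 ∧
      |mR l a b (c + i) E| ≤ 3 / 10 * |l| + i * (2 / 100) * |l| ^ 2 +
          24000 * μ ^ 4 * (phi ^ (2 * i) * (-mP l a b c E)) ^ 2 := by
  induction i with
  | zero =>
    intro _
    have h1 : (0 : ℝ) ≤ 24000 * μ ^ 4 * (-mP l a b c E) ^ 2 := by positivity
    have h2 : (0 : ℝ) ≤ 1 / 10 * |l| ^ 2 := by positivity
    refine ⟨?_, ?_, ?_⟩
    · simp only [add_zero, mul_zero, pow_zero, one_mul, sub_self, zero_add]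
      rw [show mP l a b c E + -mP l a b c E = 0 by ring, abs_zero]
      linarith
    · simp only [add_zero, mul_zero, pow_zero, one_mul]
      linarith
    · simp only [add_zero, mul_zero, pow_zero, one_mul, Nat.cast_zero, zero_mul]
      linarith
  | succ i ih =>
    intro hs
    set p := -mP l a b c E with hp
    set u := phi ^ (2 * i) with hu
    have hp1 : 1 / 1000 * |l| ≤ p := by rw [hp]; linarith
    have hl0 : 0 < |l| := by rw [hl]; positivity
    have hp0 : 0 < p := by linarith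
    have hu1 : (i : ℝ) + 1 ≤ u := d11_phi_pow i
    have hi0 : (0 : ℝ) ≤ i := Nat.cast_nonneg i
    have hu0 : 0 < u := by linarith
    have hu' : phi ^ (2 * (i + 1)) = (2 + gam) * u := by
      rw [show 2 * (i + 1) = 2 * i + 2 by ring, pow_add, d11_pp, hu]
      ring
    have g1 := d11_g1
    have g2 := d11_g2
    have gg := d11_gg
    have hs' : u * p ≤ 3 * μ ^ 2 := by
      refine le_trans ?_ hs
      rw [hu']
      nlinarith [mul_pos hu0 hp0]
    obtain ⟨iP, iQ, iR⟩ := ih hs'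
    have hg0 : (0:ℝ) ≤ gam ^ (2 * i) := by
      have := d11_gpos
      positivity
    have hg1 : gam ^ (2 * i) ≤ 1 := pow_le_one₀ d11_gpos.le (by linarith)
    obtain ⟨cP, -, cQ, cR⟩ := d11_crude hμ0 hμ hl hp1 hu1 rfl hs' hg0 hg1 iP iQ iR
    have hs0 : 0 ≤ u * p := by positivity
    obtain ⟨e, -, -, -⟩ := d11_ee h5 h6 h7 hμ0 hμ hl hs0 hs' cP cQ cR
    rw [← sq_abs l] at e
    obtain ⟨-, -, -, rP, rQ, rR, -⟩ := h7 l E a b (c + i)
    have hinv1 : ee l a b (c + i) E / (5 * phi) = gam / 5 * ee l a b (c + i) E := by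
      have := d11_gp
      have hp := d11_ppos
      rw [div_eq_iff (by positivity)]
      linear_combination (-(ee l a b (c + i) E)) * this
    have hinv2 : ee l a b (c + i) E / (5 * gam) = (1 + gam) / 5 * ee l a b (c + i) E := by
      have hp := d11_gpos
      rw [div_eq_iff (by positivity)]
      linear_combination (-(ee l a b (c + i) E)) * gg
    rw [d11_pp, hinv1] at rP
    rw [gg, hinv2] at rQ
    rw [show c + (i + 1) = c + i + 1 by ring, rP, rQ, rR, hu']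
    set e0 := ee l a b (c + i) E
    set P := mP l a b (c + i) E
    set Q := mQ l a b (c + i) E
    set R := mR l a b (c + i) E
    set L := |l|
    have he := abs_le.mp e
    have hL2 : 0 < L ^ 2 := by positivity
    set w := μ ^ 4 * (u * p) ^ 2 with hw
    have hw0 : 0 ≤ w := by positivity
    have hw1 : 12000 * μ ^ 4 * ((2 + gam) * u * p) ^ 2 = 12000 * ((5 + 3 * gam) * w) := by
      rw [hw]
      linear_combination 12000 * μ ^ 4 * (u * p) ^ 2 * gg
    have hw2 : 24000 * μ ^ 4 * ((2 + gam) * u * p) ^ 2 = 24000 * ((5 + 3 * gam) * w) := by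
      rw [hw]
      linear_combination 24000 * μ ^ 4 * (u * p) ^ 2 * gg
    have hw3 : 12000 * μ ^ 4 * (u * p) ^ 2 = 12000 * w := by rw [hw]; ring
    have hw4 : 24000 * μ ^ 4 * (u * p) ^ 2 = 24000 * w := by rw [hw]; ring
    have he1 : |e0| ≤ 94 / 1000 * L ^ 2 + 400000 * w := by
      refine e.trans (le_of_eq ?_)
      rw [hw]; ring
    rw [hw3] at iP
    rw [hw4] at iQ iR
    rw [hw1, hw2]
    have gw : 0 ≤ gam * w := by have := d11_gpos; positivity
    have gL : 0 ≤ gam * L ^ 2 := by have := d11_gpos; positivity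
    have gb1 : 618 / 1000 * w ≤ gam * w := by nlinarith
    have gb2 : gam * w ≤ 6181 / 10000 * w := by nlinarith
    have gb3 : 618 / 1000 * L ^ 2 ≤ gam * L ^ 2 := by nlinarith
    have gb4 : gam * L ^ 2 ≤ 6181 / 10000 * L ^ 2 := by nlinarith
    have he2 : gam / 5 * |e0| ≤ 94 / 5000 * (gam * L ^ 2) + 80000 * (gam * w) := by
      have := mul_le_mul_of_nonneg_left he1 (show 0 ≤ gam / 5 by linarith)
      linarith
    refine ⟨?_, ?_, ?_⟩
    · calc |(2 + gam) * P + gam / 5 * e0 + (2 + gam) * u * p|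
          = |(2 + gam) * (P + u * p) + gam / 5 * e0| := by ring_nf
        _ ≤ |(2 + gam) * (P + u * p)| + |gam / 5 * e0| := abs_add_le _ _
        _ = (2 + gam) * |P + u * p| + gam / 5 * |e0| := by
            rw [abs_mul, abs_mul, abs_of_pos (show 0 < 2 + gam by linarith),
              abs_of_pos (show 0 < gam / 5 by linarith)]
        _ ≤ (2 + gam) * (72 / 10000 * L ^ 2 * (u - 1) + 12000 * w) +
            (94 / 5000 * (gam * L ^ 2) + 80000 * (gam * w)) := by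
            have := mul_le_mul_of_nonneg_left iP (show 0 ≤ 2 + gam by linarith)
            linarith
        _ ≤ _ := by
            have hexp : 72 / 10000 * L ^ 2 * ((2 + gam) * u - 1) + 12000 * ((5 + 3 * gam) * w) -
              ((2 + gam) * (72 / 10000 * L ^ 2 * (u - 1) + 12000 * w) +
              (94 / 5000 * (gam * L ^ 2) + 80000 * (gam * w))) =
              72 / 10000 * (L ^ 2 + gam * L ^ 2) - 94 / 5000 * (gam * L ^ 2) + 36000 * w -
                56000 * (gam * w) := by ring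
            have : 0 ≤ 72 / 10000 * (L ^ 2 + gam * L ^ 2) - 94 / 5000 * (gam * L ^ 2) +
                36000 * w - 56000 * (gam * w) := by linarith
            linarith
    · calc |(1 - gam) * Q - (1 + gam) / 5 * e0|
          ≤ |(1 - gam) * Q| + |(1 + gam) / 5 * e0| := abs_sub _ _
        _ = (1 - gam) * |Q| + (1 + gam) / 5 * |e0| := by
            rw [abs_mul, abs_mul, abs_of_pos (show 0 < 1 - gam by linarith),
              abs_of_pos (show 0 < (1 + gam) / 5 by linarith)]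
        _ ≤ (1 - gam) * (gam ^ (2 * i) * (3 / 10 * L) + 1 / 10 * L ^ 2 + 24000 * w) +
            (1 + gam) / 5 * (94 / 1000 * L ^ 2 + 400000 * w) := by
            have h1 := mul_le_mul_of_nonneg_left iQ (show 0 ≤ 1 - gam by linarith)
            have h2 := mul_le_mul_of_nonneg_left he1 (show 0 ≤ (1 + gam) / 5 by linarith)
            linarith
        _ ≤ _ := by
            have hgp : gam ^ (2 * (i + 1)) = (1 - gam) * gam ^ (2 * i) := by
              rw [show 2 * (i + 1) = 2 * i + 2 by ring, pow_add, gg]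
              ring
            rw [hgp]
            nlinarith
    · push_cast
      calc |-R + e0 / 5| ≤ |-R| + |e0 / 5| := abs_add_le _ _
        _ = |R| + |e0| / 5 := by
            rw [abs_neg, abs_div, abs_of_pos (show (0:ℝ) < 5 by norm_num)]
        _ ≤ _ := by
            linarith

/-- summary at level `c + i` -/
theorem d11_at (h5 : ST_D5) (h6 : ST_D6) (h7 : ST_D7) {l E : ℝ} {a b : ℤ} {c : ℕ} {μ : ℝ}
    (hμ0 : 0 < μ) (hμ : μ ≤ 1 / 10 ^ 9) (hl : |l| = μ ^ 5)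
    (hP1 : mP l a b c E ≤ -(1 / 1000) * |l|)
    (hR : |mR l a b c E| ≤ 3 / 10 * |l|) (hQ : |mQ l a b c E| ≤ 3 / 10 * |l|) (i : ℕ)
    (hs : phi ^ (2 * i) * (-mP l a b c E) ≤ 3 * μ ^ 2) :
    (|mP l a b (c + i) E + phi ^ (2 * i) * (-mP l a b c E)| ≤
        1 / 100 * (phi ^ (2 * i) * (-mP l a b c E)) ∧
      |mQ l a b (c + i) E| ≤ |l| ∧ |mR l a b (c + i) E| ≤ |l|) ∧
    |tt l a b (c + i) E| ≤ 25 * μ ^ 2 ∧ |tt l a b (c + i + 1) E| ≤ 25 * μ ^ 2 ∧
      |tt l a b (c + i + 2) E| ≤ 25 * μ ^ 2 := by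
  obtain ⟨iP, iQ, iR⟩ := d11_ind h5 h6 h7 hμ0 hμ hl hP1 hR hQ i hs
  set p := -mP l a b c E with hp
  set u := phi ^ (2 * i) with hu
  have hp1 : 1 / 1000 * |l| ≤ p := by rw [hp]; linarith
  have hl0 : 0 < |l| := by rw [hl]; positivity
  have hp0 : 0 < p := by linarith
  have hu1 : (i : ℝ) + 1 ≤ u := d11_phi_pow i
  have hi0 : (0 : ℝ) ≤ i := Nat.cast_nonneg i
  have hu0 : 0 < u := by linarith
  have hg0 : (0:ℝ) ≤ gam ^ (2 * i) := by
    have := d11_gpos
    positivity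
  have hg1 : gam ^ (2 * i) ≤ 1 := pow_le_one₀ d11_gpos.le (by linarith [d11_g2])
  obtain ⟨cP, cP', cQ, cR⟩ := d11_crude hμ0 hμ hl hp1 hu1 rfl hs hg0 hg1 iP iQ iR
  obtain ⟨-, e⟩ := d11_ee h5 h6 h7 hμ0 hμ hl (show 0 ≤ u * p by positivity) hs cP cQ cR
  exact ⟨⟨cP', cQ, cR⟩, e⟩

end

end Pool.Agent.Helper36.CV
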