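import Pool.Agent.Helper46.CV.D11b

set_option autoImplicit false

namespace Pool.Agent.Helper36.CV

open Complex

noncomputable section

/-! D11, part c: phases -/

theorem d11_sign (p : ℤ) : ((-1 : ℝ) ^ p.natAbs = 1 ∧ ∀ x : ℝ, Real.cos (x - p * Real.pi) = Real.cos x) ∨
    ((-1 : ℝ) ^ p.natAbs = -1 ∧ ∀ x : ℝ, Real.cos (x - p * Real.pi) = -Real.cos x) := by
  rcases Int.even_or_odd p with h | h
  · left
    refine ⟨?_, fun x => ?_⟩
    · exact (Int.natAbs_even.mpr h).neg_one_pow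
    · rw [Real.cos_sub_int_mul_pi, h.neg_one_zpow, one_mul]
  · right
    refine ⟨?_, fun x => ?_⟩
    · exact (Int.natAbs_odd.mpr h).neg_one_pow
    · rw [Real.cos_sub_int_mul_pi, h.neg_one_zpow, neg_one_mul]

theorem d11_clamp_neg (x : ℝ) : clamp (-x) = -clamp x := by
  unfold clamp
  rcases le_total x (-1) with h | h
  · rw [min_eq_right (show x ≤ 1 by linarith), max_eq_left h, min_eq_left (show 1 ≤ -x by linarith),
      max_eq_right (by norm_num)]
    norm_num
  · rcases le_total x 1 with h' | h'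
    · rw [min_eq_right h', max_eq_right h, min_eq_right (show -x ≤ 1 by linarith),
        max_eq_right (by linarith)]
    · rw [min_eq_left h', min_eq_right (show -x ≤ 1 by linarith),
        max_eq_left (show -x ≤ -1 by linarith), max_eq_right (show (-1 : ℝ) ≤ 1 by norm_num)]

/-- `cos (pi r) = clamp (1 - tt)` -/
theorem d11_cos (h6 : ST_T6) {l : ℝ} (hl0 : 0 < |l|) (hl : |l| ≤ 1 / 100) (a b : ℤ) (n : ℕ) (E : ℝ) :
    Real.cos (Real.pi * rr l a b n E) = clamp (1 - tt l a b n E) := by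
  have h1 := ((h6 l hl0 hl n).2.2 E).2.2
  have h2 : Real.pi * rr l a b n E = Th l n E - (pp a b n : ℝ) * Real.pi := by
    unfold rr
    have := Real.pi_ne_zero
    field_simp
  have h3 : 1 - tt l a b n E = (-1) ^ (pp a b n).natAbs * X l n E := by
    unfold tt
    ring
  rw [h2, h3]
  rcases d11_sign (pp a b n) with ⟨s1, s2⟩ | ⟨s1, s2⟩
  · rw [s1, s2, one_mul, h1]
  · rw [s1, s2, h1, neg_one_mul, d11_clamp_neg]

theorem d11_clamp_ge {x m : ℝ} (hm : m ≤ 1) (hm' : 0 ≤ m) (h : |x| ≤ m) : 1 - m ≤ clamp (1 - x) := by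
  unfold clamp
  have := abs_le.mp h
  refine le_max_of_le_right (le_min ?_ ?_) <;> linarith

/-- `|r| < 1` and `cos (pi r) ≥ 3/4` give `|r| < 1/4` -/
theorem d11_quarter {r : ℝ} (h1 : |r| < 1) (h : 3 / 4 ≤ Real.cos (Real.pi * r)) : |r| < 1 / 4 := by
  by_contra hc
  push Not at hc
  have hp := Real.pi_pos
  rw [← Real.cos_abs, abs_mul, abs_of_pos hp] at h
  have h2 : Real.cos (Real.pi * |r|) ≤ Real.cos (Real.pi / 4) := by
    apply Real.cos_le_cos_of_nonneg_of_le_pi (by positivity)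
    · nlinarith
    · nlinarith
  rw [Real.cos_pi_div_four] at h2
  have h3 : Real.sqrt 2 < 3 / 2 := by
    rw [Real.sqrt_lt' (by norm_num)]
    norm_num
  linarith

theorem d11_rr_rec (l : ℝ) (a b : ℤ) (n : ℕ) (E : ℝ) :
    rr l a b (n + 2) E = rr l a b (n + 1) E + rr l a b n E + D l n E / Real.pi := by
  unfold rr
  have h1 : Th l (n + 2) E = Th l (n + 1) E + Th l n E + D l n E := by
    cases n with
    | zero => rfl
    | succ n => rfl
  have h2 : pp a b (n + 2) = pp a b (n + 1) + pp a b n := by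
    cases n with
    | zero => rfl
    | succ n => rfl
  rw [h1, h2]
  push_cast
  ring

theorem d11_D_small (h6 : ST_T6) {l : ℝ} (hl0 : 0 < |l|) (hl : |l| ≤ 1 / 10000) (n : ℕ) (E : ℝ) :
    |D l n E / Real.pi| ≤ 1 / 100 := by
  have h1 := ((h6 l hl0 (by linarith) n).2.2 E).2.1
  have h2 : Real.sqrt |l| ≤ 1 / 100 := by
    rw [Real.sqrt_le_left (by norm_num)]
    linarith
  have hp := Real.pi_gt_three
  rw [abs_div, abs_of_pos Real.pi_pos, div_le_iff₀ Real.pi_pos]
  linarith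

theorem d11_phase (h5 : ST_D5) (h6 : ST_D6) (h7 : ST_D7) (t6 : ST_T6) {l E : ℝ} {a b : ℤ} {c : ℕ}
    {μ : ℝ} (hμ0 : 0 < μ) (hμ : μ ≤ 1 / 10 ^ 9) (hl : |l| = μ ^ 5)
    (hr : ∀ j, c ≤ j → j ≤ c + 2 → |rr l a b j E| < 1 / 4)
    (hP1 : mP l a b c E ≤ -(1 / 1000) * |l|)
    (hR : |mR l a b c E| ≤ 3 / 10 * |l|) (hQ : |mQ l a b c E| ≤ 3 / 10 * |l|) (i : ℕ)
    (hs : phi ^ (2 * i) * (-mP l a b c E) ≤ 3 * μ ^ 2) :
    |rr l a b (c + i) E| < 1 / 4 ∧ |rr l a b (c + i + 1) E| < 1 / 4 ∧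
      |rr l a b (c + i + 2) E| < 1 / 4 := by
  induction i with
  | zero =>
    exact ⟨hr _ (by omega) (by omega), hr _ (by omega) (by omega), hr _ (by omega) (by omega)⟩
  | succ i ih =>
    have hl0 : 0 < |l| := by rw [hl]; positivity
    have hp0 : 0 < -mP l a b c E := by linarith
    have hmono : phi ^ (2 * i) * (-mP l a b c E) ≤ phi ^ (2 * (i + 1)) * (-mP l a b c E) := by
      apply mul_le_mul_of_nonneg_right _ hp0.le
      apply pow_le_pow_right₀
      · rw [d11_phi]; linarith [d11_g1]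
      · omega
    obtain ⟨-, i1, i2⟩ := ih (hmono.trans hs)
    refine ⟨by rw [show c + (i + 1) = c + i + 1 by ring]; exact i1,
      by rw [show c + (i + 1) + 1 = c + i + 2 by ring]; exact i2, ?_⟩
    have hμ3 : μ ^ 5 ≤ 1 / 10000 := by
      calc μ ^ 5 ≤ (1 / 10 ^ 9) ^ 5 := by gcongr
        _ ≤ 1 / 10000 := by norm_num
    have hμ2 : 25 * μ ^ 2 ≤ 1 / 100 := by
      calc 25 * μ ^ 2 ≤ 25 * (1 / 10 ^ 9) ^ 2 := by gcongr
        _ ≤ 1 / 100 := by norm_num
    have hl1 : |l| ≤ 1 / 10000 := by rw [hl]; exact hμ3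
    obtain ⟨-, -, -, t2⟩ := d11_at h5 h6 h7 hμ0 hμ hl hP1 hR hQ (i + 1) hs
    have hrec := d11_rr_rec l a b (c + i + 1) E
    have hD := d11_D_small t6 hl0 hl1 (c + i + 1) E
    have e1 : c + (i + 1) + 2 = c + i + 1 + 2 := by ring
    rw [e1] at t2 ⊢
    apply d11_quarter
    · rw [hrec]
      have j1 := abs_lt.mp i1
      have j2 := abs_lt.mp i2
      have j3 := abs_le.mp hD
      have e2 : c + i + 1 + 1 = c + i + 2 := by ring
      rw [e2, abs_lt]
      constructor <;> linarith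
    · rw [d11_cos t6 hl0 (by linarith)]
      have := d11_clamp_ge (m := 25 * μ ^ 2) (by linarith) (by positivity) t2
      linarith

/-- `tt < 0` and `|r| < 1/4` give `r = 0` and `|X| > 1` -/
theorem d11_hyp (t6 : ST_T6) {l E : ℝ} {a b : ℤ} {n : ℕ} (hl0 : 0 < |l|) (hl : |l| ≤ 1 / 100)
    (ht : tt l a b n E < 0) (hr : |rr l a b n E| < 1 / 4) :
    Th l n E = Real.pi * (pp a b n : ℝ) ∧ |X l n E| = 1 - tt l a b n E ∧ 1 < |X l n E| ∧
      Real.cosh (tau l n E) = 1 - tt l a b n E ∧ 0 ≤ tau l n E := by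
  have h1 := d11_cos t6 hl0 hl a b n E
  have hX : |X l n E| = 1 - tt l a b n E := by
    have h3 : 1 - tt l a b n E = (-1) ^ (pp a b n).natAbs * X l n E := by
      unfold tt
      ring
    have h4 : |1 - tt l a b n E| = |X l n E| := by
      rw [h3, abs_mul, abs_pow, abs_neg, abs_one, one_pow, one_mul]
    rw [← h4, abs_of_pos (by linarith)]
  have hX1 : 1 < |X l n E| := by rw [hX]; linarith
  have h2 : clamp (1 - tt l a b n E) = 1 := by
    unfold clamp
    rw [min_eq_left (by linarith), max_eq_right (by norm_num)]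
  rw [h2] at h1
  have hp := Real.pi_pos
  have hr' := abs_lt.mp hr
  rw [Real.cos_eq_one_iff_of_lt_of_lt (by nlinarith) (by nlinarith)] at h1
  have h3 : rr l a b n E = 0 := by
    rcases mul_eq_zero.mp h1 with h | h
    · exact absurd h hp.ne'
    · exact h
  refine ⟨?_, hX, hX1, ?_, ?_⟩
  · unfold rr at h3
    rw [sub_eq_zero, div_eq_iff hp.ne'] at h3
    rw [h3]
    ring
  · unfold tau
    rw [max_eq_right hX1.le, Real.cosh_arcosh hX1.le, hX]
  · unfold tau
    exact Real.arcosh_nonneg (le_max_left _ _)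

end

end Pool.Agent.Helper36.CV
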