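import Pool.Agent.Helper46.CV.D11c

set_option autoImplicit false

namespace Pool.Agent.Helper36.CV

open Complex

noncomputable section

/-! D11, part d: the Lyapunov exponent after the exit -/

theorem d11_half_sq (x : ℝ) (hx : 0 ≤ x) : x ^ 2 / 2 ≤ Real.cosh x - 1 := by
  have h1 : Real.cosh x = 2 * Real.sinh (x / 2) ^ 2 + 1 := by
    have h := Real.cosh_two_mul (x / 2)
    have h' := Real.cosh_sq (x / 2)
    rw [show 2 * (x / 2) = x by ring] at h
    linarith
  have h2 : x / 2 ≤ Real.sinh (x / 2) := Real.self_le_sinh_iff.mpr (by linarith)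
  rw [h1]
  nlinarith

theorem d11_delta {x y z u v w μ I : ℝ} (hμ : 0 < μ) (hI0 : 0 ≤ I) (hI : I ≤ 1)
    (hx : |x| = Real.cosh u) (hy : |y| = Real.cosh v) (hz : |z| = Real.cosh w)
    (hT : z ^ 2 + y ^ 2 + x ^ 2 - 2 * z * y * x - 1 = I)
    (hu : μ ≤ u) (hv : μ ≤ v) (hw : u + v ≤ w) : 4 * μ ^ 3 * (w - v - u) ≤ I := by
  have cu := Real.one_le_cosh u
  have cv := Real.one_le_cosh v
  have cw := Real.one_le_cosh w
  have hprod : |z * y * x| = Real.cosh w * Real.cosh v * Real.cosh u := by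
    rw [abs_mul, abs_mul, hx, hy, hz]
  have hx2 : x ^ 2 = Real.cosh u ^ 2 := by rw [← sq_abs, hx]
  have hy2 : y ^ 2 = Real.cosh v ^ 2 := by rw [← sq_abs, hy]
  have hz2 : z ^ 2 = Real.cosh w ^ 2 := by rw [← sq_abs, hz]
  have hp : z * y * x = Real.cosh w * Real.cosh v * Real.cosh u := by
    rcases abs_choice (z * y * x) with h | h
    · rw [← h, hprod]
    · exfalso
      have h1 : z * y * x = -(Real.cosh w * Real.cosh v * Real.cosh u) := by
        rw [← hprod, h]; ring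
      have h2 : 0 < Real.cosh w * Real.cosh v * Real.cosh u := by positivity
      have q1 : 1 ≤ Real.cosh u ^ 2 := one_le_pow₀ cu
      have q2 : 1 ≤ Real.cosh v ^ 2 := one_le_pow₀ cv
      have q3 : 1 ≤ Real.cosh w ^ 2 := one_le_pow₀ cw
      have q4 : 2 * z * y * x = 2 * (z * y * x) := by ring
      rw [q4, h1] at hT
      linarith
  have su : Real.cosh u ^ 2 = Real.sinh u ^ 2 + 1 := Real.cosh_sq u
  have sv : Real.cosh v ^ 2 = Real.sinh v ^ 2 + 1 := Real.cosh_sq v
  have hsu : μ ≤ Real.sinh u := hu.trans (Real.self_le_sinh_iff.mpr (by linarith))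
  have hsv : μ ≤ Real.sinh v := hv.trans (Real.self_le_sinh_iff.mpr (by linarith))
  set s := Real.sinh u * Real.sinh v with hs
  have hs0 : μ ^ 2 ≤ s := by
    rw [hs, pow_two]
    exact mul_le_mul hsu hsv hμ.le (by linarith)
  set dl := w - v - u with hdl
  have hdl0 : 0 ≤ dl := by rw [hdl]; linarith
  have hC : Real.cosh (u + v) = Real.cosh u * Real.cosh v + s := by
    rw [Real.cosh_add]
  have hkey : (Real.cosh w - Real.cosh u * Real.cosh v) ^ 2 = s ^ 2 + I := by
    have h1 : 2 * z * y * x = 2 * (Real.cosh w * Real.cosh v * Real.cosh u) := by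
      rw [← hp]; ring
    rw [h1, hx2, hy2, hz2] at hT
    rw [hs]
    linear_combination hT + (Real.cosh v ^ 2 - 1) * su + Real.sinh u ^ 2 * sv
  have hsuv : 2 * μ ≤ Real.sinh (u + v) := by
    have := Real.self_le_sinh_iff.mpr (show 0 ≤ u + v by linarith)
    linarith
  have hcw : Real.cosh (u + v) + dl * Real.sinh (u + v) ≤ Real.cosh w := by
    have h1 : w = (u + v) + dl := by rw [hdl]; ring
    rw [h1, Real.cosh_add (u + v) dl]
    have h2 := Real.one_le_cosh dl
    have h3 : dl ≤ Real.sinh dl := Real.self_le_sinh_iff.mpr hdl0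
    have h4 := Real.one_le_cosh (u + v)
    have h5 : 0 ≤ Real.sinh (u + v) := by linarith
    have h6 := mul_le_mul_of_nonneg_left h2 (show 0 ≤ Real.cosh (u + v) by linarith)
    have h7 := mul_le_mul_of_nonneg_left h3 h5
    linarith
  set d := Real.cosh w - Real.cosh (u + v) with hd
  have hd1 : dl * (2 * μ) ≤ d := by
    have : dl * (2 * μ) ≤ dl * Real.sinh (u + v) := by gcongr
    rw [hd]
    linarith
  have hd0 : 0 ≤ d := le_trans (by positivity) hd1
  have hkey2 : 2 * s * d ≤ I := by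
    have : Real.cosh w - Real.cosh u * Real.cosh v = s + d := by
      rw [hd, hC]; ring
    rw [this] at hkey
    linarith [sq_nonneg d]
  calc 4 * μ ^ 3 * dl = 2 * μ ^ 2 * (dl * (2 * μ)) := by ring
    _ ≤ 2 * s * d := by
        apply mul_le_mul _ hd1 (by positivity)
        · linarith [pow_pos hμ 2]
        · linarith
    _ ≤ I := hkey2

theorem d11_tau_cosh {l E : ℝ} {n : ℕ} (h : 1 ≤ |X l n E|) : |X l n E| = Real.cosh (tau l n E) := by
  unfold tau
  rw [max_eq_right h, Real.cosh_arcosh h]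

theorem d11_Ly_up (h10 : ST_D10) {l E : ℝ} {N : ℕ} {κ : ℝ} (hl0 : 0 < |l|) (hl : |l| ≤ 1 / 100)
    (hδ : ∀ j, N ≤ j → tau l (j + 2) E - tau l (j + 1) E - tau l j E ≤ κ) (hκ : 0 ≤ κ) :
    Ly l E ≤ gam ^ N * (tau l (N + 1) E + gam * tau l N E + κ * phi) := by
  have g1 := d11_g1
  have g2 := d11_g2
  have gg := d11_gg
  have hg := d11_gpos
  have hf := d11_ppos
  have hind : ∀ m : ℕ, gam ^ (N + m) * (tau l (N + m + 1) E + gam * tau l (N + m) E) ≤
      gam ^ N * (tau l (N + 1) E + gam * tau l N E) + κ * phi * (gam ^ N - gam ^ (N + m)) := by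
    intro m
    induction m with
    | zero => simp
    | succ m ih =>
      have h1 := hδ (N + m) (by omega)
      have hpw : 0 < gam ^ (N + m) := by positivity
      have e1 : gam ^ (N + (m + 1)) = gam ^ (N + m) * gam := by
        rw [show N + (m + 1) = N + m + 1 by ring, pow_succ]
      rw [e1, show N + (m + 1) + 1 = N + m + 2 by ring, show N + (m + 1) = N + m + 1 by ring]
      set G := gam ^ (N + m)
      set A := tau l (N + m + 2) E
      set B := tau l (N + m + 1) E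
      set C := tau l (N + m) E
      have e2 : G * gam * (A + gam * B) = G * gam * (A - B - C) + G * (B + gam * C) := by
        linear_combination (G * B) * gg
      have e3 : κ * phi * (gam ^ N - G * gam) = κ * phi * (gam ^ N - G) + G * gam * κ := by
        have hp := d11_phi
        rw [hp]
        linear_combination (-(κ * G)) * gg
      rw [e2, e3]
      have : G * gam * (A - B - C) ≤ G * gam * κ := by gcongr
      linarith
  have hup : ∀ m : ℕ, Ly l E ≤ gam ^ N * (tau l (N + 1) E + gam * tau l N E + κ * phi) +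
      gam ^ m * (phi * Real.sqrt |l|) := by
    intro m
    have h1 := (h10 l hl0 hl (N + m) E).1
    have h2 := (abs_le.mp h1).2
    have h3 := hind m
    have h4 : gam ^ (N + m) * (phi * Real.sqrt |l|) ≤ gam ^ m * (phi * Real.sqrt |l|) := by
      apply mul_le_mul_of_nonneg_right _ (by positivity)
      exact pow_le_pow_of_le_one hg.le (by linarith) (by omega)
    have h5 : 0 ≤ κ * phi * gam ^ (N + m) := by positivity
    have h6 : κ * phi * (gam ^ N - gam ^ (N + m)) = gam ^ N * (κ * phi) - κ * phi * gam ^ (N + m) := by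
      ring
    have h7 : gam ^ N * (tau l (N + 1) E + gam * tau l N E + κ * phi) =
      gam ^ N * (tau l (N + 1) E + gam * tau l N E) + gam ^ N * (κ * phi) := by ring
    rw [h7]
    linarith
  have hlim : Filter.Tendsto (fun m : ℕ => gam ^ N * (tau l (N + 1) E + gam * tau l N E + κ * phi) +
      gam ^ m * (phi * Real.sqrt |l|)) Filter.atTop
      (nhds (gam ^ N * (tau l (N + 1) E + gam * tau l N E + κ * phi) + 0 * (phi * Real.sqrt |l|))) := by
    apply Filter.Tendsto.add tendsto_const_nhds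
    apply Filter.Tendsto.mul_const
    exact tendsto_pow_atTop_nhds_zero_of_lt_one hg.le (by linarith)
  have := ge_of_tendsto' hlim hup
  linarith

/-- the square of the weighted sum of two growth rates -/
theorem d11_sigma {x y a Q R yN yM μ : ℝ} (hμ0 : 0 < μ) (hμ : μ ≤ 1 / 10 ^ 9)
    (hx0 : 0 ≤ x) (hy0 : 0 ≤ y)
    (hx : |yN + x ^ 2 / 2| ≤ x ^ 8 / 100) (hy : |yM + y ^ 2 / 2| ≤ y ^ 8 / 100)
    (hx2 : x ^ 2 ≤ 50 * μ ^ 2) (hy2 : y ^ 2 ≤ 50 * μ ^ 2)
    (hyN : yN = -a + Q + R) (hyM : yM = (2 + gam) * (-a) + (1 - gam) * Q - R)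
    (ha1 : 98 / 100 * μ ^ 2 ≤ a) (ha2 : a ≤ 31 / 10 * μ ^ 2) (hQ : |Q| ≤ 170000 * μ ^ 8)
    (hR : |R| ≤ μ ^ 5) :
    |(y + gam * x) ^ 2 - 10 * a| ≤ 3000000 * μ ^ 8 ∧ μ ≤ x ∧ μ ≤ y ∧ y + gam * x ≤ 6 * μ := by
  have g1 := d11_g1
  have g2 := d11_g2
  have gg := d11_gg
  have hμ2 : 0 < μ ^ 2 := by positivity
  have hμ8 : 0 < μ ^ 8 := by positivity
  have hμ6 : μ ^ 6 ≤ 1 / 10 ^ 12 := by
    calc μ ^ 6 ≤ (1 / 10 ^ 9) ^ 6 := by gcongr
      _ ≤ 1 / 10 ^ 12 := by norm_num
  have hμ3 : μ ^ 3 ≤ 1 / 10 ^ 12 := by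
    calc μ ^ 3 ≤ (1 / 10 ^ 9) ^ 3 := by gcongr
      _ ≤ 1 / 10 ^ 12 := by norm_num
  have hx8 : x ^ 8 ≤ 6250000 * μ ^ 8 := by
    calc x ^ 8 = (x ^ 2) ^ 4 := by ring
      _ ≤ (50 * μ ^ 2) ^ 4 := by gcongr
      _ = 6250000 * μ ^ 8 := by ring
  have hy8 : y ^ 8 ≤ 6250000 * μ ^ 8 := by
    calc y ^ 8 = (y ^ 2) ^ 4 := by ring
      _ ≤ (50 * μ ^ 2) ^ 4 := by gcongr
      _ = 6250000 * μ ^ 8 := by ring
  have h68 : μ ^ 8 ≤ 1 / 10 ^ 12 * μ ^ 2 := by
    calc μ ^ 8 = μ ^ 6 * μ ^ 2 := by ring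
      _ ≤ 1 / 10 ^ 12 * μ ^ 2 := by gcongr
  have h35 : μ ^ 5 ≤ 1 / 10 ^ 12 * μ ^ 2 := by
    calc μ ^ 5 = μ ^ 3 * μ ^ 2 := by ring
      _ ≤ 1 / 10 ^ 12 * μ ^ 2 := by gcongr
  have hxx := abs_le.mp hx
  have ha0 : 0 < a := by linarith
  have hga1 : 618 / 1000 * a ≤ gam * a := by gcongr
  have hga2 : gam * a ≤ 6181 / 10000 * a := by gcongr
  have hyy := abs_le.mp hy
  have hQ' := abs_le.mp hQ
  have hR' := abs_le.mp hR
  set e1 := x ^ 2 - 2 * a + 2 * R with he1
  set e2 := y ^ 2 - 2 * (2 + gam) * a - 2 * R with he2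
  have b1 : |e1| ≤ 500000 * μ ^ 8 := by
    rw [abs_le, he1]
    constructor <;> linarith
  have gQ : |(1 - gam) * Q| ≤ 170000 * μ ^ 8 := by
    rw [abs_mul, abs_of_pos (show 0 < 1 - gam by linarith)]
    calc (1 - gam) * |Q| ≤ 1 * (170000 * μ ^ 8) := by
          apply mul_le_mul (by linarith) hQ (abs_nonneg _) (by norm_num)
      _ = 170000 * μ ^ 8 := one_mul _
  have gQ' := abs_le.mp gQ
  have b2 : |e2| ≤ 500000 * μ ^ 8 := by
    rw [abs_le, he2]
    constructor <;> linarith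
  have hX : x ^ 2 = 2 * a - 2 * R + e1 := by rw [he1]; ring
  have hY : y ^ 2 = 2 * (2 + gam) * a + 2 * R + e2 := by rw [he2]; ring
  have b1' := abs_le.mp b1
  have b2' := abs_le.mp b2
  have hxμ : μ ≤ x := by
    by_contra hc
    push Not at hc
    have : x ^ 2 < μ ^ 2 := by gcongr
    linarith
  have hyμ : μ ≤ y := by
    by_contra hc
    push Not at hc
    have : y ^ 2 < μ ^ 2 := by gcongr
    linarith
  set W := 2 * (1 + gam) * a - R with hW
  have hWa : 32 / 10 * a ≤ W := by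
    rw [hW]
    linarith
  set T := x * y with hT
  have hT0 : 0 ≤ T := by positivity
  have hTW : T ^ 2 - W ^ 2 = -5 * R ^ 2 + e1 * (2 * (2 + gam) * a + 2 * R + e2) +
      e2 * (2 * a - 2 * R) := by
    rw [hT, mul_pow, hX, hY, hW]
    linear_combination (-4 * a ^ 2) * gg
  have hR2 : 5 * R ^ 2 ≤ 500000 * μ ^ 8 * a := by
    have h1 : R ^ 2 ≤ (μ ^ 5) ^ 2 := by
      rw [← sq_abs R]
      gcongr
    have h2 : (μ ^ 5) ^ 2 = μ ^ 8 * μ ^ 2 := by ring
    rw [h2] at h1
    have h3 : μ ^ 8 * μ ^ 2 ≤ μ ^ 8 * (2 * a) := by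
      apply mul_le_mul_of_nonneg_left _ hμ8.le
      linarith
    have h4 : 0 < μ ^ 8 * a := by positivity
    linarith
  have hA : |2 * (2 + gam) * a + 2 * R + e2| ≤ 53 / 10 * a := by
    rw [abs_le]
    constructor <;> linarith
  have hB : |2 * a - 2 * R| ≤ 21 / 10 * a := by
    rw [abs_le]
    constructor <;> linarith
  have hdiff : |T ^ 2 - W ^ 2| ≤ 9 * a * (500000 * μ ^ 8) := by
    rw [hTW]
    have h1 : |e1 * (2 * (2 + gam) * a + 2 * R + e2)| ≤ (500000 * μ ^ 8) * (53 / 10 * a) := by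
      rw [abs_mul]
      gcongr
    have h2 : |e2 * (2 * a - 2 * R)| ≤ (500000 * μ ^ 8) * (21 / 10 * a) := by
      rw [abs_mul]
      gcongr
    have h1' := abs_le.mp h1
    have h2' := abs_le.mp h2
    have h3 : 0 ≤ R ^ 2 := sq_nonneg R
    have h4 : 0 < μ ^ 8 * a := by positivity
    rw [abs_le]
    constructor <;> linarith
  have hTW2 : |T - W| ≤ 3 * (500000 * μ ^ 8) := by
    have h1 : |T - W| * (32 / 10 * a) ≤ 9 * a * (500000 * μ ^ 8) := by
      calc |T - W| * (32 / 10 * a) ≤ |T - W| * (T + W) := by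
            apply mul_le_mul_of_nonneg_left _ (abs_nonneg _)
            linarith
        _ = |T - W| * |T + W| := by rw [abs_of_nonneg (show 0 ≤ T + W by linarith)]
        _ = |T ^ 2 - W ^ 2| := by rw [← abs_mul]; ring_nf
        _ ≤ _ := hdiff
    by_contra hc
    push Not at hc
    have h2 : 3 * (500000 * μ ^ 8) * (32 / 10 * a) < |T - W| * (32 / 10 * a) := by
      apply mul_lt_mul_of_pos_right hc
      positivity
    have h4 : 0 < μ ^ 8 * a := by positivity
    linarith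
  have hTW3 := abs_le.mp hTW2
  have hfin : (y + gam * x) ^ 2 - 10 * a = e2 + (1 - gam) * e1 + 2 * gam * (T - W) := by
    have h1 : (y + gam * x) ^ 2 = y ^ 2 + gam ^ 2 * x ^ 2 + 2 * gam * T := by
      rw [hT]; ring
    rw [h1, hX, hY, gg, hW]
    linear_combination (4 * a) * gg
  have habs : |(y + gam * x) ^ 2 - 10 * a| ≤ 3000000 * μ ^ 8 := by
    rw [hfin]
    have h1 : |(1 - gam) * e1| ≤ 4 / 10 * (500000 * μ ^ 8) := by
      rw [abs_mul, abs_of_pos (show 0 < 1 - gam by linarith)]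
      apply mul_le_mul (by linarith) b1 (abs_nonneg _) (by norm_num)
    have h2 : |2 * gam * (T - W)| ≤ 13 / 10 * (3 * (500000 * μ ^ 8)) := by
      rw [abs_mul, abs_of_pos (show 0 < 2 * gam by linarith)]
      apply mul_le_mul (by linarith) hTW2 (abs_nonneg _) (by norm_num)
    have h1' := abs_le.mp h1
    have h2' := abs_le.mp h2
    rw [abs_le]
    constructor <;> linarith
  refine ⟨habs, hxμ, hyμ, ?_⟩
  by_contra hc
  push Not at hc
  have h1 : (6 * μ) ^ 2 < (y + gam * x) ^ 2 := by gcongr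
  have h2 := (abs_le.mp habs).2
  linarith

end

end Pool.Agent.Helper36.CV
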