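import Pool.Agent.Helper46.CV.D11

set_option autoImplicit false

namespace Pool.Agent.Helper36.CV

open Complex

noncomputable section

/-! D12: upper bound of the heights, part a -/

theorem d12_level {B θ : ℝ} (hθ : 0 < θ) (hB : θ ≤ B) :
    ∃ n : ℕ, θ ≤ B * gam ^ n ∧ B * gam ^ n < phi * θ := by
  classical
  have hg := d11_gpos
  have hf := d11_ppos
  have hB0 : 0 < B := hθ.trans_le hB
  have hex : ∃ n : ℕ, B * gam ^ n < phi * θ := by
    obtain ⟨n, hn⟩ := exists_pow_lt_of_lt_one (show 0 < phi * θ / B by positivity)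
      (show gam < 1 by linarith [d11_g2])
    refine ⟨n, ?_⟩
    rw [lt_div_iff₀ hB0] at hn
    linarith
  refine ⟨Nat.find hex, ?_, Nat.find_spec hex⟩
  rcases Nat.eq_zero_or_pos (Nat.find hex) with h0 | h0
  · rw [h0]
    simpa using hB
  · obtain ⟨m, hm⟩ : ∃ m, Nat.find hex = m + 1 := ⟨Nat.find hex - 1, by omega⟩
    have h1 : ¬ B * gam ^ m < phi * θ := Nat.find_min hex (by omega)
    push Not at h1
    rw [hm, pow_succ]
    have h2 := mul_le_mul_of_nonneg_left h1 hg.le
    calc θ = gam * (phi * θ) := by linear_combination (-θ) * d11_gp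
      _ ≤ gam * (B * gam ^ m) := h2
      _ = B * (gam ^ m * gam) := by ring

theorem d12_Dpi (t6 : ST_T6) {l : ℝ} (hl0 : 0 < |l|) (hl : |l| ≤ 1 / 100) (n : ℕ) (E : ℝ) :
    |D l n E / Real.pi| ≤ 322 / 1000 * Real.sqrt |l| := by
  have h1 := ((t6 l hl0 hl n).2.2 E).2.1
  have hp := Real.pi_gt_d6
  have ht : 0 ≤ Real.sqrt |l| := Real.sqrt_nonneg _
  rw [abs_div, abs_of_pos Real.pi_pos, div_le_iff₀ Real.pi_pos]
  nlinarith

theorem d12_a (d1 : ST_D1) (t6 : ST_T6) {l E : ℝ} {a b : ℤ} (hl0 : 0 < |l|) (hl : |l| ≤ 1 / 100)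
    (hlab : ∃ n0, ∀ n, n0 ≤ n → Th l n E = Real.pi * (pp a b n : ℝ)) (n : ℕ) :
    |aa l a b n E| ≤ 53 / 100 * Real.sqrt |l| := by
  obtain ⟨n0, h0⟩ := hlab
  have ht : 0 ≤ Real.sqrt |l| := Real.sqrt_nonneg _
  have hr : ∀ n, n0 ≤ n → rr l a b n E = 0 := by
    intro n hn
    unfold rr
    rw [h0 n hn]
    have := Real.pi_ne_zero
    field_simp
    ring
  have hind : ∀ m n : ℕ, n0 ≤ n + m → |aa l a b n E| ≤ 53 / 100 * Real.sqrt |l| := by
    intro m
    induction m with
    | zero =>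
      intro n hn
      unfold aa
      rw [hr n (by omega), hr (n + 1) (by omega)]
      simp only [mul_zero, add_zero, abs_zero]
      positivity
    | succ m ih =>
      intro n hn
      have h1 := ih (n + 1) (by omega)
      have h2 := (d1 l E a b n).1
      have h3 := d12_Dpi t6 hl0 hl n E
      have h4 : aa l a b n E = gam * (aa l a b (n + 1) E - D l n E / Real.pi) := by
        rw [h2]
        linear_combination (-(aa l a b n E)) * d11_gp
      have g0 := d11_gpos
      have g2 := d11_g2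
      rw [h4, abs_mul, abs_of_pos g0]
      have h5 : |aa l a b (n + 1) E - D l n E / Real.pi| ≤ 852 / 1000 * Real.sqrt |l| := by
        refine (abs_sub _ _).trans ?_
        linarith
      calc gam * |aa l a b (n + 1) E - D l n E / Real.pi| ≤
          6181 / 10000 * (852 / 1000 * Real.sqrt |l|) := by
            apply mul_le_mul g2.le h5 (abs_nonneg _) (by norm_num)
        _ ≤ 53 / 100 * Real.sqrt |l| := by linarith
  exact hind n0 n (by omega)

theorem d12_b (d1 : ST_D1) (t6 : ST_T6) {l E : ℝ} (a b : ℤ) (hl0 : 0 < |l|) (hl : |l| ≤ 1 / 100)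
    (n k : ℕ) :
    |bb l a b (n + k) E| ≤ gam ^ k * |bb l a b n E| + 85 / 100 * Real.sqrt |l| := by
  have ht : 0 ≤ Real.sqrt |l| := Real.sqrt_nonneg _
  induction k with
  | zero => simp only [add_zero, pow_zero, one_mul]; linarith
  | succ k ih =>
    have h2 := (d1 l E a b (n + k)).2.1
    have h3 := d12_Dpi t6 hl0 hl (n + k) E
    have g0 := d11_gpos
    have g2 := d11_g2
    rw [show n + (k + 1) = n + k + 1 by ring, h2]
    calc |-gam * bb l a b (n + k) E + D l (n + k) E / Real.pi|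
        ≤ |-gam * bb l a b (n + k) E| + |D l (n + k) E / Real.pi| := abs_add_le _ _
      _ = gam * |bb l a b (n + k) E| + |D l (n + k) E / Real.pi| := by
          rw [abs_mul, abs_neg, abs_of_pos g0]
      _ ≤ gam * (gam ^ k * |bb l a b n E| + 85 / 100 * Real.sqrt |l|) +
          322 / 1000 * Real.sqrt |l| := by
          have := mul_le_mul_of_nonneg_left ih g0.le
          linarith
      _ = gam ^ (k + 1) * |bb l a b n E| + gam * (85 / 100 * Real.sqrt |l|) +
          322 / 1000 * Real.sqrt |l| := by ring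
      _ ≤ _ := by
          have : gam * (85 / 100 * Real.sqrt |l|) ≤ 6181 / 10000 * (85 / 100 * Real.sqrt |l|) := by
            apply mul_le_mul_of_nonneg_right g2.le (by positivity)
          linarith

theorem d12_bn (d1 : ST_D1) {l E : ℝ} {a b : ℤ} {n : ℕ} (hl : |l| ≤ 1 / 10000)
    (ha : |aa l a b n E| ≤ 53 / 100 * Real.sqrt |l|)
    (hW : |WS l n E| ≤ 9 * Real.sqrt 5 * |(b : ℝ)| * |l|) :
    |bb l a b n E| ≤ 226 / 100 * (|(b : ℝ)| * gam ^ n) + 53 / 100 * Real.sqrt |l| := by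
  have h := (d1 l E a b n).2.2.2.2
  have g0 := d11_gpos
  have g2 := d11_g2
  have gn : 0 < gam ^ n := by positivity
  have gn1 : gam ^ n ≤ 1 := pow_le_one₀ g0.le (by linarith)
  have s5 : Real.sqrt 5 ≤ 22362 / 10000 := by
    rw [Real.sqrt_le_left (by norm_num)]
    norm_num
  have s50 : 0 ≤ Real.sqrt 5 := Real.sqrt_nonneg _
  have hb0 : 0 ≤ |(b : ℝ)| := abs_nonneg _
  have e1 : |(-gam) ^ n| = gam ^ n := by rw [abs_pow, abs_neg, abs_of_pos g0]
  rw [h, abs_mul, e1]
  have h1 : |Real.sqrt 5 * b + gam ^ n * aa l a b n E - WS l n E| ≤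
      Real.sqrt 5 * |(b : ℝ)| + |aa l a b n E| + |WS l n E| := by
    refine (abs_sub _ _).trans ?_
    have h2 : |Real.sqrt 5 * b + gam ^ n * aa l a b n E| ≤
        Real.sqrt 5 * |(b : ℝ)| + |aa l a b n E| := by
      refine (abs_add_le _ _).trans ?_
      rw [abs_mul, abs_mul, abs_of_nonneg s50, abs_of_pos gn]
      have : gam ^ n * |aa l a b n E| ≤ 1 * |aa l a b n E| := by gcongr
      linarith
    linarith
  have h3 : |WS l n E| ≤ 21 / 10000 * |(b : ℝ)| := by
    refine hW.trans ?_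
    calc 9 * Real.sqrt 5 * |(b : ℝ)| * |l| ≤ 9 * (22362 / 10000) * |(b : ℝ)| * (1 / 10000) := by
          gcongr
      _ ≤ 21 / 10000 * |(b : ℝ)| := by linarith
  have h4 : Real.sqrt 5 * |(b : ℝ)| ≤ 22362 / 10000 * |(b : ℝ)| := by gcongr
  have h5 : |Real.sqrt 5 * b + gam ^ n * aa l a b n E - WS l n E| ≤
      226 / 100 * |(b : ℝ)| + 53 / 100 * Real.sqrt |l| := by linarith
  have h6 := mul_le_mul_of_nonneg_left h5 gn.le
  have h7 : gam ^ n * (53 / 100 * Real.sqrt |l|) ≤ 53 / 100 * Real.sqrt |l| := by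
    have := Real.sqrt_nonneg |l|
    nlinarith
  linarith

theorem d12_r (d1 : ST_D1) {l E : ℝ} {a b : ℤ} {n : ℕ} {A B : ℝ}
    (ha : |aa l a b n E| ≤ A) (hb : |bb l a b n E| ≤ B) :
    2236 / 1000 * |rr l a b n E| ≤ A + B := by
  have h := (d1 l E a b n).2.2.1
  have s5 : 2236 / 1000 ≤ Real.sqrt 5 := by
    apply Real.le_sqrt_of_sq_le
    norm_num
  have h1 : Real.sqrt 5 * |rr l a b n E| = |aa l a b n E - bb l a b n E| := by
    rw [← h, abs_mul, abs_of_nonneg (Real.sqrt_nonneg _)]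
  have h2 : 2236 / 1000 * |rr l a b n E| ≤ Real.sqrt 5 * |rr l a b n E| := by
    apply mul_le_mul_of_nonneg_right s5 (abs_nonneg _)
  have h3 := abs_sub (aa l a b n E) (bb l a b n E)
  linarith

/-- an upper bound for `yy` from the phase -/
theorem d12_yup (d5 : ST_D5) (t6 : ST_T6) {l E : ℝ} {a b : ℤ} {n : ℕ} {t : ℝ} (hl0 : 0 < |l|)
    (hl : |l| ≤ 1 / 100) (ht0 : 0 < t) (ht : t ≤ 1 / 10) (htt : |tt l a b n E| ≤ 1)
    (hr : |rr l a b n E| ≤ 63 / 100 * t) : yy l a b n E ≤ 2 * t ^ 2 := by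
  have hPol0 : Pol 0 = 0 := by unfold Pol; norm_num
  have hc := d11_cos t6 hl0 hl a b n E
  rcases lt_or_ge (tt l a b n E) 0 with h | h
  · have h1 := d5.2.2 h
    rw [hPol0] at h1
    have h2 : yy l a b n E = Pol (tt l a b n E) := rfl
    nlinarith
  · have h1 : clamp (1 - tt l a b n E) = 1 - tt l a b n E := by
      have := (abs_le.mp htt).2
      unfold clamp
      rw [min_eq_right (by linarith), max_eq_right (by linarith)]
    rw [h1] at hc
    have hpi := Real.pi_lt_d6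
    have hpi0 := Real.pi_pos
    have h2 : |Real.pi * rr l a b n E| ≤ 198 / 100 * t := by
      rw [abs_mul, abs_of_pos hpi0]
      calc Real.pi * |rr l a b n E| ≤ 3.141593 * (63 / 100 * t) := by
            apply mul_le_mul hpi.le hr (abs_nonneg _) (by norm_num)
        _ ≤ 198 / 100 * t := by nlinarith
    have h3 := d5.1 (Real.pi * rr l a b n E) (by linarith)
    have h4 : yy l a b n E = Pol (1 - Real.cos (Real.pi * rr l a b n E)) := by
      rw [hc, show 1 - (1 - tt l a b n E) = tt l a b n E by ring]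
      rfl
    rw [← h4] at h3
    have h5 := (abs_le.mp h3).2
    have h6 : (Real.pi * rr l a b n E) ^ 2 ≤ (198 / 100 * t) ^ 2 := by
      rw [← sq_abs]
      gcongr
    have h7 : (Real.pi * rr l a b n E) ^ 8 ≤ (198 / 100 * t) ^ 8 := by
      have e : (Real.pi * rr l a b n E) ^ 8 = |Real.pi * rr l a b n E| ^ 8 := by
        rw [show (8 : ℕ) = 2 * 4 by norm_num, pow_mul, pow_mul, sq_abs]
      rw [e]
      gcongr
    have h8 : (198 / 100 * t) ^ 8 / 100 ≤ 1 / 1000 * t ^ 2 := by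
      have e : t ^ 6 ≤ 1 / 10 ^ 6 := by
        calc t ^ 6 ≤ (1 / 10) ^ 6 := by gcongr
          _ = 1 / 10 ^ 6 := by norm_num
      calc (198 / 100 * t) ^ 8 / 100 = (198 / 100) ^ 8 / 100 * t ^ 6 * t ^ 2 := by ring
        _ ≤ (198 / 100) ^ 8 / 100 * (1 / 10 ^ 6) * t ^ 2 := by gcongr
        _ ≤ 1 / 1000 * t ^ 2 := by
            apply mul_le_mul_of_nonneg_right (by norm_num) (by positivity)
    nlinarith

end

end Pool.Agent.Helper36.CV
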