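import Pool.Agent.Helper46.CV.D12a

set_option autoImplicit false

namespace Pool.Agent.Helper36.CV

open Complex

noncomputable section

/-! D12, part b: numbers -/

theorem d12_G {g t L : ℝ} (ht0 : 0 < t) (hL : L = t ^ 2)
    (hg1 : 15 / 100 * t ≤ g) (hg2 : g < 15 / 100 * phi * t) :
    111 / 1000 * L ≤ Real.pi ^ 2 / 2 * g ^ 2 ∧ Real.pi ^ 2 / 2 * g ^ 2 ≤ 2908 / 10000 * L ∧
      g ≤ 2428 / 10000 * t ∧ 0 < g := by
  have hp1 := Real.pi_gt_d6
  have hp2 := Real.pi_lt_d6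
  have hg0 : 0 < g := by linarith
  have hf : phi ≤ 16181 / 10000 := by rw [d11_phi]; linarith [d11_g2]
  have hg3 : g ≤ 242715 / 1000000 * t := by
    have : 15 / 100 * phi * t ≤ 15 / 100 * (16181 / 10000) * t := by gcongr
    linarith
  have h1 : (3.141592 : ℝ) ^ 2 ≤ Real.pi ^ 2 := by gcongr
  have h2 : Real.pi ^ 2 ≤ (3.141593 : ℝ) ^ 2 := by gcongr
  have h3 : (15 / 100 * t) ^ 2 ≤ g ^ 2 := by gcongr
  have h4 : g ^ 2 ≤ (242715 / 1000000 * t) ^ 2 := by gcongr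
  have ht2 : 0 < t ^ 2 := by positivity
  refine ⟨?_, ?_, by linarith, hg0⟩
  · calc 111 / 1000 * L ≤ (3.141592 : ℝ) ^ 2 / 2 * (15 / 100 * t) ^ 2 := by
          rw [hL]; nlinarith
      _ ≤ Real.pi ^ 2 / 2 * g ^ 2 := by gcongr
  · calc Real.pi ^ 2 / 2 * g ^ 2 ≤ (3.141593 : ℝ) ^ 2 / 2 * (242715 / 1000000 * t) ^ 2 := by
          gcongr
      _ ≤ 2908 / 10000 * L := by
          rw [hL]; nlinarith

theorem d12_Qb {Q G L : ℝ} (hL0 : 0 < L) (hL : L ≤ 1 / 10 ^ 30)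
    (hG1 : 111 / 1000 * L ≤ G) (hG2 : G ≤ 2908 / 10000 * L)
    (hQ : |Q - G| ≤ G * (194 / 10) * L + 44 / 1000 * L ^ 2) :
    110 / 1000 * L ≤ Q ∧ Q ≤ 292 / 1000 * L ∧ G * (1 - 198 / 10 * L) ≤ Q := by
  have h := abs_le.mp hQ
  have hL2 : L ^ 2 ≤ 1 / 10 ^ 30 * L := by
    rw [pow_two]
    gcongr
  have hL3 : 0 < L ^ 2 := by positivity
  have hGL : G * L ≤ 2908 / 10000 * L ^ 2 := by
    calc G * L ≤ 2908 / 10000 * L * L := by gcongr
      _ = _ := by ring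
  have hGL2 : 111 / 1000 * L ^ 2 ≤ G * L := by
    calc 111 / 1000 * L ^ 2 = 111 / 1000 * L * L := by ring
      _ ≤ G * L := by gcongr
  refine ⟨by linarith, by linarith, by linarith⟩

theorem d12_center {P Q R L t Y y8 f16 g16 : ℝ} (ht0 : 0 < t) (ht : t ≤ 1 / 10 ^ 15) (hL : L = t ^ 2)
    (hQ1 : 110 / 1000 * L ≤ Q) (hQ2 : Q ≤ 292 / 1000 * L)
    (hP : |P| ≤ 4000 * L) (hR : |R| ≤ 31 * L)
    (hY : Y = (8 + 4 * gam) * P + (4 - 4 * gam) * Q + R)
    (h7 : |5 * (R ^ 2 - 4 * P * Q) - L ^ 2 / 4 * (1 + Y / 3)| ≤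
      40 * (28000 * L) ^ 4 + 10 * L ^ 2 * (28000 * L) ^ 2)
    (hy8 : y8 ≤ 2 * t ^ 2) (hf : 1500 ≤ f16) (hg : 0 ≤ g16)
    (hy : f16 * P + g16 * Q + R - 3 * (L * t) ≤ y8) :
    P ≤ 1 / 100 * L ∧ -(12 / 100) * L ≤ P ∧ |R| ≤ 25 / 100 * L ∧
      (P < 0 → -(20 * P * Q) ≤ L ^ 2 / 4 * (1 + 24 / 100 * L)) := by
  have hL0 : 0 < L := by rw [hL]; positivity
  have hL1 : L ≤ 1 / 10 ^ 30 := by
    rw [hL]
    calc t ^ 2 ≤ (1 / 10 ^ 15) ^ 2 := by gcongr
      _ = 1 / 10 ^ 30 := by norm_num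
  have g1 := d11_g1
  have g2 := d11_g2
  have hL2 : 0 < L ^ 2 := by positivity
  have hL3 : 0 < L ^ 3 := by positivity
  have hL32 : L ^ 3 ≤ 1 / 10 ^ 30 * L ^ 2 := by
    calc L ^ 3 = L * L ^ 2 := by ring
      _ ≤ 1 / 10 ^ 30 * L ^ 2 := by gcongr
  have e7 : 40 * (28000 * L) ^ 4 + 10 * L ^ 2 * (28000 * L) ^ 2 ≤ 1 / 10 ^ 6 * L ^ 3 := by
    calc 40 * (28000 * L) ^ 4 + 10 * L ^ 2 * (28000 * L) ^ 2 =
        (40 * 28000 ^ 4 + 10 * 28000 ^ 2) * L * L ^ 3 := by ring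
      _ ≤ (40 * 28000 ^ 4 + 10 * 28000 ^ 2) * (1 / 10 ^ 30) * L ^ 3 := by gcongr
      _ ≤ 1 / 10 ^ 6 * L ^ 3 := by
          apply mul_le_mul_of_nonneg_right (by norm_num) hL3.le
  have h7' := abs_le.mp (h7.trans e7)
  have hP' := abs_le.mp hP
  have hR' := abs_le.mp hR
  have hY1 : |Y| ≤ 45000 * L := by
    have a1 : |(8 + 4 * gam) * P| ≤ 11 * (4000 * L) := by
      rw [abs_mul, abs_of_pos (show 0 < 8 + 4 * gam by linarith)]
      apply mul_le_mul (by linarith) hP (abs_nonneg _) (by norm_num)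
    have a2 : |(4 - 4 * gam) * Q| ≤ 2 * (292 / 1000 * L) := by
      rw [abs_mul, abs_of_pos (show 0 < 4 - 4 * gam by linarith),
        abs_of_nonneg (show 0 ≤ Q by linarith)]
      apply mul_le_mul (by linarith) hQ2 (by linarith) (by norm_num)
    have a1' := abs_le.mp a1
    have a2' := abs_le.mp a2
    rw [hY, abs_le]
    constructor <;> linarith
  have hY1' := abs_le.mp hY1
  have hLY1 : L ^ 2 / 4 * (Y / 3) ≤ 3750 * L ^ 3 := by
    calc L ^ 2 / 4 * (Y / 3) ≤ L ^ 2 / 4 * (45000 * L / 3) := by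
          apply mul_le_mul_of_nonneg_left _ (by positivity)
          linarith
      _ = 3750 * L ^ 3 := by ring
  have hk1 : 5 * R ^ 2 - 20 * (P * Q) ≤ 2501 / 10000 * L ^ 2 := by
    have : L ^ 2 / 4 * (1 + Y / 3) = L ^ 2 / 4 + L ^ 2 / 4 * (Y / 3) := by ring
    rw [this] at h7'
    linarith
  have hR2 : 0 ≤ R ^ 2 := sq_nonneg R
  have hQ0 : 0 < Q := by linarith
  have hLt : L * t ≤ 1 / 10 ^ 15 * L := by
    rw [mul_comm]
    gcongr
  have hP1 : P ≤ 1 / 100 * L := by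
    by_contra hcon
    push Not at hcon
    have hP0 : 0 < P := by linarith
    have b1 : P * Q ≤ 292 / 10 * P ^ 2 := by
      calc P * Q ≤ P * (292 / 1000 * L) := by gcongr
        _ ≤ P * (292 / 1000 * (100 * P)) := by
            apply mul_le_mul_of_nonneg_left _ hP0.le
            linarith
        _ = _ := by ring
    have b2 : L ^ 2 ≤ 10000 * P ^ 2 := by
      calc L ^ 2 ≤ (100 * P) ^ 2 := by
            apply pow_le_pow_left₀ hL0.le
            linarith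
        _ = 10000 * P ^ 2 := by ring
    have b3 : R ^ 2 ≤ (25 * P) ^ 2 := by linarith
    have b4 : |R| ≤ 25 * P := by
      rw [← abs_of_pos (show 0 < 25 * P by linarith)]
      exact sq_le_sq.mp b3
    have b5 := (abs_le.mp b4).1
    have b6 : 1500 * P ≤ f16 * P := by gcongr
    have b7 : 0 ≤ g16 * Q := by positivity
    rw [← hL] at hy8
    linarith
  have hPQ : P * Q ≤ 292 / 100000 * L ^ 2 := by
    calc P * Q ≤ 1 / 100 * L * Q := by gcongr
      _ ≤ 1 / 100 * L * (292 / 1000 * L) := by gcongr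
      _ = _ := by ring
  have hR1 : |R| ≤ 25 / 100 * L := by
    have b3 : R ^ 2 ≤ (25 / 100 * L) ^ 2 := by
      have e : (25 / 100 * L) ^ 2 = 625 / 10000 * L ^ 2 := by ring
      rw [e]
      linarith
    rw [← abs_of_pos (show 0 < 25 / 100 * L by linarith)]
    exact sq_le_sq.mp b3
  have hP2 : -(12 / 100) * L ≤ P := by
    by_contra hcon
    push Not at hcon
    have b1 : P * Q ≤ -(132 / 10000) * L ^ 2 := by
      calc P * Q ≤ (-(12 / 100) * L) * Q := by gcongr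
        _ = -(12 / 100 * L * Q) := by ring
        _ ≤ -(12 / 100 * L * (110 / 1000 * L)) := by
            apply neg_le_neg
            gcongr
        _ = _ := by ring
    linarith
  refine ⟨hP1, hP2, hR1, fun hP0 => ?_⟩
  have hR1' := abs_le.mp hR1
  have hY2 : Y ≤ 7 / 10 * L := by
    have a1 : (8 + 4 * gam) * P ≤ 0 := by
      apply mul_nonpos_of_nonneg_of_nonpos (by linarith) hP0.le
    have a2 : (4 - 4 * gam) * Q ≤ 1528 / 1000 * (292 / 1000 * L) := by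
      apply mul_le_mul (by linarith) hQ2 hQ0.le (by norm_num)
    rw [hY]
    linarith
  have hLY2 : L ^ 2 / 4 * (1 + Y / 3) ≤ L ^ 2 / 4 * (1 + 7 / 30 * L) := by
    apply mul_le_mul_of_nonneg_left _ (by positivity)
    linarith
  have hfin : L ^ 2 / 4 * (1 + 7 / 30 * L) + 1 / 10 ^ 6 * L ^ 3 ≤ L ^ 2 / 4 * (1 + 24 / 100 * L) := by
    have e : L ^ 2 / 4 * (1 + 24 / 100 * L) - (L ^ 2 / 4 * (1 + 7 / 30 * L) + 1 / 10 ^ 6 * L ^ 3) =
      (24 / 400 - 7 / 120 - 1 / 10 ^ 6) * L ^ 3 := by ring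
    have : 0 ≤ (24 / 400 - 7 / 120 - 1 / 10 ^ 6 : ℝ) * L ^ 3 := by
      apply mul_nonneg (by norm_num) hL3.le
    linarith
  have e : 5 * (R ^ 2 - 4 * P * Q) = 5 * R ^ 2 - 20 * P * Q := by ring
  rw [e] at h7'
  linarith

theorem d12_B {B F P Q g G L : ℝ} (hL0 : 0 < L) (hL : L ≤ 1 / 10 ^ 30)
    (hG : G = Real.pi ^ 2 / 2 * g ^ 2) (hG2 : G ≤ 2908 / 10000 * L) (hg0 : 0 < g)
    (hQ : G * (1 - 198 / 10 * L) ≤ Q) (hP : P < 0)
    (hPQ : -(20 * P * Q) ≤ L ^ 2 / 4 * (1 + 24 / 100 * L))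
    (hB : B ^ 2 = g ^ 2 * F) (hF : |F + 10 * P| ≤ 1 / 10 * L ^ 2) :
    B ≤ L / (2 * Real.pi) * (1 + 12 * L) := by
  have hpi := Real.pi_pos
  have hF' := (abs_le.mp hF).2
  have h1 : 0 < 1 - 198 / 10 * L := by linarith
  have hL3 : 0 < L ^ 3 := by positivity
  have hL2 : 0 < L ^ 2 := by positivity
  have hG0 : 0 < G := by rw [hG]; positivity
  have h2 : -(20 * P * (G * (1 - 198 / 10 * L))) ≤ L ^ 2 / 4 * (1 + 24 / 100 * L) := by
    refine le_trans ?_ hPQ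
    have : -(20 * P) * (G * (1 - 198 / 10 * L)) ≤ -(20 * P) * Q := by
      apply mul_le_mul_of_nonneg_left hQ
      linarith
    linarith
  have h3 : Real.pi ^ 2 * B ^ 2 ≤ 2 * G * (-(10 * P) + 1 / 10 * L ^ 2) := by
    rw [hB]
    calc Real.pi ^ 2 * (g ^ 2 * F) = 2 * G * F := by rw [hG]; ring
      _ ≤ 2 * G * (-(10 * P) + 1 / 10 * L ^ 2) := by
          apply mul_le_mul_of_nonneg_left _ (by positivity)
          linarith
  have h4 : Real.pi ^ 2 * B ^ 2 * (1 - 198 / 10 * L) ≤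
      L ^ 2 / 4 * (1 + 24 / 100 * L) + 2 * G * (1 / 10 * L ^ 2) := by
    have a := mul_le_mul_of_nonneg_right h3 h1.le
    have b : 2 * G * (1 / 10 * L ^ 2) * (1 - 198 / 10 * L) ≤ 2 * G * (1 / 10 * L ^ 2) := by
      have : 0 ≤ 2 * G * (1 / 10 * L ^ 2) := by positivity
      nlinarith
    linarith
  have h5 : 2 * G * (1 / 10 * L ^ 2) ≤ 6 / 100 * L ^ 3 := by
    calc 2 * G * (1 / 10 * L ^ 2) ≤ 2 * (2908 / 10000 * L) * (1 / 10 * L ^ 2) := by gcongr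
      _ = 2 * 2908 / 100000 * L ^ 3 := by ring
      _ ≤ 6 / 100 * L ^ 3 := by
          apply mul_le_mul_of_nonneg_right (by norm_num) hL3.le
  have h6 : L ^ 2 / 4 * (1 + 24 / 100 * L) + 6 / 100 * L ^ 3 ≤
      L ^ 2 / 4 * (1 + 24 * L) * (1 - 198 / 10 * L) := by
    have e : L ^ 2 / 4 * (1 + 24 * L) * (1 - 198 / 10 * L) -
        (L ^ 2 / 4 * (1 + 24 / 100 * L) + 6 / 100 * L ^ 3) =
        L ^ 3 * ((24 - 198 / 10) / 4 - 24 / 400 - 6 / 100 - 24 * (198 / 10) / 4 * L) := by ring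
    have : 0 ≤ L ^ 3 * ((24 - 198 / 10) / 4 - 24 / 400 - 6 / 100 - 24 * (198 / 10) / 4 * L) := by
      apply mul_nonneg hL3.le
      linarith
    linarith
  have h7 : Real.pi ^ 2 * B ^ 2 ≤ L ^ 2 / 4 * (1 + 24 * L) := by
    have : Real.pi ^ 2 * B ^ 2 * (1 - 198 / 10 * L) ≤
      L ^ 2 / 4 * (1 + 24 * L) * (1 - 198 / 10 * L) := by linarith
    exact le_of_mul_le_mul_right this h1
  by_contra hcon
  push Not at hcon
  have h8 : 0 < L / (2 * Real.pi) * (1 + 12 * L) := by positivity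
  have h9 : (L / (2 * Real.pi) * (1 + 12 * L)) ^ 2 < B ^ 2 := by gcongr
  have h10 : Real.pi ^ 2 * (L / (2 * Real.pi) * (1 + 12 * L)) ^ 2 = L ^ 2 / 4 * (1 + 12 * L) ^ 2 := by
    field_simp
    ring
  have h11 : Real.pi ^ 2 * (L / (2 * Real.pi) * (1 + 12 * L)) ^ 2 < Real.pi ^ 2 * B ^ 2 := by
    apply mul_lt_mul_of_pos_left h9 (by positivity)
  rw [h10] at h11
  have h12 : L ^ 2 / 4 * (1 + 24 * L) ≤ L ^ 2 / 4 * (1 + 12 * L) ^ 2 := by
    apply mul_le_mul_of_nonneg_left _ (by positivity)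
    linarith [sq_nonneg L]
  linarith

/-- growth rate from a lower bound for `yy` -/
theorem d12_tau (d5 : ST_D5) (l : ℝ) {E : ℝ} {a b : ℤ} {n : ℕ} {η : ℝ}
    (hη0 : 0 ≤ η) (hη : η ≤ 1 / 10) (htt : |tt l a b n E| ≤ 1) (hy : -η ≤ yy l a b n E) :
    tau l n E ^ 2 ≤ 22 / 10 * η := by
  rcases le_or_gt |X l n E| 1 with h | h
  · unfold tau
    rw [max_eq_left h, Real.arcosh_zero]
    nlinarith
  · have h3 : 1 - tt l a b n E = (-1) ^ (pp a b n).natAbs * X l n E := by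
      unfold tt
      ring
    have h4 : |1 - tt l a b n E| = |X l n E| := by
      rw [h3, abs_mul, abs_pow, abs_neg, abs_one, one_pow, one_mul]
    have htt' := abs_le.mp htt
    rw [abs_of_nonneg (by linarith)] at h4
    have ht : tt l a b n E < 0 := by linarith
    have hPol0 : Pol 0 = 0 := by unfold Pol; norm_num
    have h5 := d5.2.2 ht
    rw [hPol0] at h5
    have h6 : |Pol (tt l a b n E)| ≤ η := by
      rw [abs_of_neg h5]
      have h2 : yy l a b n E = Pol (tt l a b n E) := rfl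
      linarith
    have h7 := d11_tt_le d5 hη h6
    rw [abs_of_neg ht] at h7
    have h8 : Real.cosh (tau l n E) = |X l n E| := (d11_tau_cosh h.le).symm
    have h9 : 0 ≤ tau l n E := by
      unfold tau
      exact Real.arcosh_nonneg (le_max_left _ _)
    have h10 := d11_half_sq _ h9
    rw [h8, ← h4] at h10
    linarith

end

end Pool.Agent.Helper36.CV
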